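import Pool.Agent.Helper46.QB.Base
import Pool.Agent.Helper43.QN.Stage

/-!
QB-12. The base of the tower in the form of helper43's `QN43.Odd`: for every finite nontrivial ring `B` of
characteristic 2 there is an ODD stage `(C, Y)` over `B`.
-/

set_option autoImplicit false

namespace QB46

/-- The base, over `BBᵐᵒᵖ`. -/
theorem odd_op (BB : Type) [Ring BB] [Algebra (ZMod 2) BB] [Finite BB] [Nontrivial BB] :
    ∃ (C : Type) (_ : Group C) (Y : Type) (_ : AddCommGroup Y) (_ : Module BBᵐᵒᵖ Y)
      (_ : DistribMulAction C Y) (_ : SMulCommClass C BBᵐᵒᵖ Y), QN43.Odd BBᵐᵒᵖ C Y := by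
  obtain ⟨C, iC, finC, Y, iY, _, finY, iA, iM, iS, perf, cen, inn, h151, -, hend, hinj, hfix, hfaith⟩ :=
    base BB
  refine ⟨C, iC, Y, iY, iM, iA, iS, ?_⟩
  have h1 : ∀ c : C, c ^ 151 = 1 → c = 1 := by
    intro c hc
    have hp : Nat.Prime 151 := by norm_num
    rcases (Nat.dvd_prime hp).1 (orderOf_dvd_of_pow_eq_one hc) with h | h
    · exact orderOf_eq_one_iff.1 h
    · exact absurd (h ▸ orderOf_dvd_natCard c) h151
  refine ⟨finC, finY, perf, ?_, ?_, hfix, ?_, ?_, ?_, ?_⟩
  · intro f hf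
    obtain ⟨b, hb⟩ := hend f hf
    exact ⟨MulOpposite.op b, hb⟩
  · intro b hb
    have := hinj b.unop 0 (fun y => by
      rw [MulOpposite.op_unop, hb y, MulOpposite.op_zero, zero_smul])
    exact MulOpposite.unop_injective (by rw [this, MulOpposite.unop_zero])
  · intro θ _
    obtain ⟨g, hg⟩ := inn θ
    refine ⟨g, fun c => ?_⟩
    have := DFunLike.congr_fun hg c
    rw [MulAut.conj_apply] at this
    exact this
  · intro c hc y
    rw [h1 c hc, one_smul]
  · intro c hc _
    exact hfaith c hc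
  · intro c hc
    have hcc : c ∈ Subgroup.center C := by
      rw [Subgroup.mem_center_iff]
      intro x
      have h2 : c⁻¹ * x⁻¹ * (c * x) = 1 := by
        refine hfaith _ fun y => ?_
        have h3 := hc x y
        rw [← mul_smul, ← mul_smul] at h3
        rw [mul_smul, h3, ← mul_smul]
        have : c⁻¹ * x⁻¹ * (x * c) = 1 := by group
        rw [this, one_smul]
      have h4 : c * x = x * c := by
        have := congrArg (fun t => x * c * t) h2
        simpa [mul_assoc] using this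
      exact h4.symm
    rw [cen, Subgroup.mem_bot] at hcc
    intro y
    rw [hcc, one_smul]

/-- The base, over any finite nontrivial ring `B` with `2 = 0`. -/
theorem odd_base (B : Type) [Ring B] [Finite B] [Nontrivial B] (h2 : (2 : B) = 0) :
    ∃ (C : Type) (_ : Group C) (Y : Type) (_ : AddCommGroup Y) (_ : Module B Y)
      (_ : DistribMulAction C Y) (_ : SMulCommClass C B Y), QN43.Odd B C Y := by
  have h2' : (2 : Bᵐᵒᵖ) = 0 := by
    apply MulOpposite.unop_injective
    exact h2
  haveI : CharP Bᵐᵒᵖ 2 := CharTwo.of_one_ne_zero_of_two_eq_zero one_ne_zero h2'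
  letI : Algebra (ZMod 2) Bᵐᵒᵖ := ZMod.algebra _ 2
  haveI : Finite Bᵐᵒᵖ := Finite.of_injective MulOpposite.unop MulOpposite.unop_injective
  obtain ⟨C, iC, Y, iY, iM, iA, iS, h⟩ := odd_op Bᵐᵒᵖ
  let f : B →+* Bᵐᵒᵖᵐᵒᵖ := (RingEquiv.opOp B).toRingHom
  letI iM' : Module B Y := Module.compHom Y f
  have hsm : ∀ (b : B) (y : Y), b • y = MulOpposite.op (MulOpposite.op b) • y := fun b y => rfl
  haveI iS' : SMulCommClass C B Y := ⟨fun c b y => by rw [hsm, hsm, smul_comm]⟩
  refine ⟨C, iC, Y, iY, iM', iA, iS', h.finC, h.finY, h.perf, ?_, ?_, h.fix, h.inner, h.piTriv,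
    h.piCent, h.cent⟩
  · intro g hg
    obtain ⟨b, hb⟩ := h.endo g hg
    exact ⟨b.unop.unop, hb⟩
  · intro b hb
    have := h.faith (MulOpposite.op (MulOpposite.op b)) hb
    exact MulOpposite.op_injective (MulOpposite.op_injective this)

end QB46
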