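import Pool.Agent.Helper46.QB.Transv

/-!
QB-07. `151` does not divide the order of `T : L` for sizes `≤ 14`.

Proof. `AG m ≃ T m × L m` (`AG.mk`), `Nat.card` of a finite product (`Nat.card_pi`, after `Fintype ι`), `Nat.card (Fin n → ZMod 2) = 2 ^ n`,
`Matrix.card_GL_field : Nat.card (GL (Fin n) K) = ∏ i : Fin n, (Nat.card K ^ n - Nat.card K ^ i)`. A prime dividing a product divides a factor;
`151 ∤ 2 ^ n` and for `i < n ≤ 14` `151 ∤ 2 ^ n - 2 ^ i` (finite check: `interval_cases` / `decide`, `∀ n ≤ 14, ∀ i < n`).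
The same for `257`.
-/

set_option autoImplicit false

namespace QB46

variable {ι : Type} [DecidableEq ι] [Finite ι] {m : ι → ℕ}

private def agEquiv : AG m ≃ T m × L m where
  toFun a := (a.v, a.g)
  invFun x := ⟨x.1, x.2⟩
  left_inv _ := rfl
  right_inv _ := rfl

instance : Finite (AG m) := Finite.of_equiv _ agEquiv.symm

private theorem card_aux (p : ℕ) (hp : p.Prime) (h2 : ¬ p ∣ 2)
    (hd : ∀ n ≤ 14, ∀ i < n, ¬ p ∣ 2 ^ n - 2 ^ i) (h : ∀ i, m i ≤ 14) :
    ¬ p ∣ Nat.card (AG m) := by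
  have := Fintype.ofFinite ι
  have : Fact p.Prime := ⟨hp⟩
  rw [Nat.card_congr agEquiv, Nat.card_prod, hp.dvd_mul]
  rintro (h1 | h1)
  · rw [Nat.card_pi] at h1
    obtain ⟨i, _, hi⟩ := (Prime.dvd_finsetProd_iff hp.prime _).mp h1
    rw [Nat.card_pi] at hi
    obtain ⟨j, _, hj⟩ := (Prime.dvd_finsetProd_iff hp.prime _).mp hi
    rw [Nat.card_zmod] at hj
    exact h2 hj
  · rw [Nat.card_pi] at h1
    obtain ⟨i, _, hi⟩ := (Prime.dvd_finsetProd_iff hp.prime _).mp h1
    rw [Matrix.card_GL_field] at hi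
    obtain ⟨j, _, hj⟩ := (Prime.dvd_finsetProd_iff hp.prime _).mp hi
    rw [ZMod.card] at hj
    exact hd (m i) (h i) j j.isLt hj

theorem card_AG (h : ∀ i, m i ≤ 14) : ¬ 151 ∣ Nat.card (AG m) := by
  refine card_aux 151 (by norm_num) (by norm_num) ?_ h
  decide

theorem card_AG' (h : ∀ i, m i ≤ 14) : ¬ 257 ∣ Nat.card (AG m) := by
  refine card_aux 257 (by norm_num) (by norm_num) ?_ h
  decide

end QB46
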