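import Pool.Agent.Helper46.QB.Defs

/-!
QB-08. The decoder for the lower shift `opA` and `opB` = upper shift + diagonal.

Proof. Write `ε_i u = Pi.single i u`. `opA (ε_i u) = ε_(i+1) u` for `i < n`, `opA (ε_n u) = 0`; `opB s (ε_i u) = ε_(i-1) u + ε_i (s i * u)` for
`i ≥ 1`, `opB s (ε_0 u) = ε_0 (s 0 * u)`. `opA x = 0` iff `x i = 0` for all `i < n`, i.e. `x = ε_n (x n)`. So `f` preserves this: `f (ε_n u) = ε_n (φ u)`,
`φ u := f (ε_n u) n` additive. Claim by induction on `r = n - i`: `f (ε_i u) = ε_i (φ u)`, and `φ (s i * u) = s i * φ u`.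
`r = 0`: the first is the definition, and `s n = 0` gives the second. `r = 1`: `ε_(n-1) u = opB s (ε_n u)` (as `s n = 0`), so
`f (ε_(n-1) u) = opB s (ε_n (φ u)) = ε_(n-1) (φ u)`. Step from `i ≥ 1` (claim 1 for `i`) to `i - 1`: `ε_(i-1) u = opB s (ε_i u) - ε_i (s i * u)`, so
`f (ε_(i-1) u) = opB s (ε_i (φ u)) - ε_i (φ (s i * u)) = ε_(i-1) (φ u) + ε_i (s i * φ u - φ (s i * u))`. Apply `opA`: `opA (f (ε_(i-1) u)) = f (ε_i u) =
ε_i (φ u)`, so if `i < n` the second term `ε_(i+1) (s i * φ u - φ (s i * u))` is `0`; for `i = n` it is `0` as `s n = 0`. So claim 1 for `i - 1` and claim 2 for `i`.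
Claim 2 for `i = 0`: `f (opB s (ε_0 u)) = f (ε_0 (s 0 * u))` (for `n = 0` it is `s 0 = 0`). Finally `x = ∑ i, ε_i (x i)`.
-/

set_option autoImplicit false

namespace QB46

variable {BB : Type} [Ring BB] {n : ℕ}

private theorem opA_single (i : ℕ) (hi : i < n) (u : BB) :
    opA BB n (Pi.single ⟨i, by omega⟩ u) = Pi.single ⟨i + 1, by omega⟩ u := by
  funext j
  obtain ⟨j, hj⟩ := j
  change (if h : j = 0 then 0 else (Pi.single (⟨i, by omega⟩ : Fin (n + 1)) u : Fin (n + 1) → BB) ⟨j - 1, by omega⟩) =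
    (Pi.single (⟨i + 1, by omega⟩ : Fin (n + 1)) u : Fin (n + 1) → BB) ⟨j, hj⟩
  by_cases h0 : j = 0
  · subst h0
    rw [dif_pos rfl, Pi.single_eq_of_ne (by simp [Fin.ext_iff])]
  · rw [dif_neg h0]
    by_cases h1 : j = i + 1
    · subst h1
      simp
    · rw [Pi.single_eq_of_ne (by simp only [ne_eq, Fin.mk.injEq]; omega),
        Pi.single_eq_of_ne (by simp only [ne_eq, Fin.mk.injEq]; omega)]

private theorem opA_last (u : BB) : opA BB n (Pi.single (Fin.last n) u) = 0 := by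
  funext j
  obtain ⟨j, hj⟩ := j
  change (if h : j = 0 then 0 else (Pi.single (Fin.last n) u : Fin (n + 1) → BB) ⟨j - 1, by omega⟩) = 0
  by_cases h0 : j = 0
  · rw [dif_pos h0]
  · rw [dif_neg h0, Pi.single_eq_of_ne (by simp only [ne_eq, Fin.ext_iff, Fin.val_last]; omega)]

private theorem opB_single_succ (s : Fin (n + 1) → BB) (i : ℕ) (hi : i < n) (u : BB) :
    opB s (Pi.single ⟨i + 1, by omega⟩ u) =
      Pi.single ⟨i, by omega⟩ u + Pi.single ⟨i + 1, by omega⟩ (s ⟨i + 1, by omega⟩ * u) := by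
  funext j
  obtain ⟨j, hj⟩ := j
  change (if h : j + 1 < n + 1 then (Pi.single (⟨i + 1, by omega⟩ : Fin (n + 1)) u : Fin (n + 1) → BB) ⟨j + 1, h⟩ else 0) +
      s ⟨j, hj⟩ * (Pi.single (⟨i + 1, by omega⟩ : Fin (n + 1)) u : Fin (n + 1) → BB) ⟨j, hj⟩ =
    (Pi.single (⟨i, by omega⟩ : Fin (n + 1)) u : Fin (n + 1) → BB) ⟨j, hj⟩ +
      (Pi.single (⟨i + 1, by omega⟩ : Fin (n + 1)) (s ⟨i + 1, by omega⟩ * u) : Fin (n + 1) → BB) ⟨j, hj⟩
  congr 1
  · by_cases h1 : j = i
    · subst h1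
      rw [dif_pos (by omega)]
      simp
    · rw [Pi.single_eq_of_ne (M := fun _ => BB) (i := (⟨i, by omega⟩ : Fin (n + 1))) (by simp only [ne_eq, Fin.mk.injEq]; omega)]
      split_ifs with h
      · rw [Pi.single_eq_of_ne (by simp only [ne_eq, Fin.mk.injEq]; omega)]
      · rfl
  · by_cases h1 : j = i + 1
    · subst h1
      simp
    · rw [Pi.single_eq_of_ne (by simp only [ne_eq, Fin.mk.injEq]; omega),
        Pi.single_eq_of_ne (by simp only [ne_eq, Fin.mk.injEq]; omega), mul_zero]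

private theorem opB_single_zero (s : Fin (n + 1) → BB) (u : BB) :
    opB s (Pi.single 0 u) = Pi.single 0 (s 0 * u) := by
  funext j
  obtain ⟨j, hj⟩ := j
  change (if h : j + 1 < n + 1 then (Pi.single (0 : Fin (n + 1)) u : Fin (n + 1) → BB) ⟨j + 1, h⟩ else 0) +
      s ⟨j, hj⟩ * (Pi.single (0 : Fin (n + 1)) u : Fin (n + 1) → BB) ⟨j, hj⟩ =
    (Pi.single (0 : Fin (n + 1)) (s 0 * u) : Fin (n + 1) → BB) ⟨j, hj⟩
  have h1 : (if h : j + 1 < n + 1 then (Pi.single (0 : Fin (n + 1)) u : Fin (n + 1) → BB) ⟨j + 1, h⟩ else 0) = 0 := by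
    split_ifs with h
    · rw [Pi.single_eq_of_ne (by simp [Fin.ext_iff])]
    · rfl
  rw [h1, zero_add]
  by_cases h2 : j = 0
  · subst h2
    change s 0 * (Pi.single (0 : Fin (n + 1)) u : Fin (n + 1) → BB) 0 = (Pi.single (0 : Fin (n + 1)) (s 0 * u) : Fin (n + 1) → BB) 0
    rw [Pi.single_eq_same, Pi.single_eq_same]
  · rw [Pi.single_eq_of_ne (by simp only [ne_eq, Fin.ext_iff, Fin.val_zero]; omega),
      Pi.single_eq_of_ne (by simp only [ne_eq, Fin.ext_iff, Fin.val_zero]; omega), mul_zero]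

private theorem of_opA_zero (x : Fin (n + 1) → BB) (hx : opA BB n x = 0) :
    x = Pi.single (Fin.last n) (x (Fin.last n)) := by
  funext j
  by_cases h : j = Fin.last n
  · subst h
    rw [Pi.single_eq_same]
  · rw [Pi.single_eq_of_ne h]
    obtain ⟨j, hj⟩ := j
    have hjn : j < n := by
      simp only [Fin.ext_iff, Fin.val_last] at h
      omega
    have h1 := congrFun hx ⟨j + 1, by omega⟩
    change (if h : j + 1 = 0 then 0 else x ⟨j + 1 - 1, by omega⟩) = 0 at h1
    rw [dif_neg (by omega)] at h1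
    simpa using h1

theorem decode (s : Fin (n + 1) → BB) (hs : s (Fin.last n) = 0)
    (f : (Fin (n + 1) → BB) →+ (Fin (n + 1) → BB))
    (hA : ∀ x, f (opA BB n x) = opA BB n (f x)) (hB : ∀ x, f (opB s x) = opB s (f x)) :
    ∃ φ : BB →+ BB, (∀ x i, f x i = φ (x i)) ∧ ∀ i u, φ (s i * u) = s i * φ u := by
  classical
  let φ : BB →+ BB :=
    { toFun := fun u => f (Pi.single (Fin.last n) u) (Fin.last n)
      map_zero' := by simp
      map_add' := fun u v => by rw [Pi.single_add, map_add]; rfl }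
  have hφ : ∀ u, φ u = f (Pi.single (Fin.last n) u) (Fin.last n) := fun u => rfl
  have h0 : ∀ u, f (Pi.single (Fin.last n) u) = Pi.single (Fin.last n) (φ u) := by
    intro u
    rw [hφ]
    apply of_opA_zero
    rw [← hA, opA_last, map_zero]
  have key : ∀ r i : ℕ, ∀ hi : i < n + 1, i + r = n →
      (∀ u, f (Pi.single ⟨i, hi⟩ u) = Pi.single ⟨i, hi⟩ (φ u)) ∧
      (∀ h : i + 1 < n + 1, ∀ u, φ (s ⟨i + 1, h⟩ * u) = s ⟨i + 1, h⟩ * φ u) := by
    intro r
    induction r with
    | zero =>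
      intro i hi hin
      obtain rfl : i = n := by omega
      exact ⟨h0, fun h => absurd h (by omega)⟩
    | succ r ih =>
      intro i hi hin
      have hlt : i < n := by omega
      obtain ⟨c1, -⟩ := ih (i + 1) (by omega) (by omega)
      have e1 : ∀ u, f (Pi.single ⟨i, hi⟩ u) = Pi.single ⟨i, hi⟩ (φ u) +
          Pi.single ⟨i + 1, by omega⟩ (s ⟨i + 1, by omega⟩ * φ u - φ (s ⟨i + 1, by omega⟩ * u)) := by
        intro u
        have e2 : (Pi.single ⟨i, hi⟩ u : Fin (n + 1) → BB) = opB s (Pi.single ⟨i + 1, by omega⟩ u) -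
            Pi.single ⟨i + 1, by omega⟩ (s ⟨i + 1, by omega⟩ * u) := by
          rw [opB_single_succ s i hlt u, add_sub_cancel_right]
        rw [e2, map_sub, hB, c1, c1, opB_single_succ s i hlt, Pi.single_sub]
        abel
      have e3 : ∀ u, s ⟨i + 1, by omega⟩ * φ u - φ (s ⟨i + 1, by omega⟩ * u) = 0 := by
        intro u
        by_cases hl : i + 1 = n
        · have : (⟨i + 1, by omega⟩ : Fin (n + 1)) = Fin.last n := Fin.ext hl
          rw [this, hs, zero_mul, zero_mul, map_zero, sub_zero]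
        · have e4 := congrArg (opA BB n) (e1 u)
          rw [← hA, opA_single i hlt, c1, map_add, opA_single i hlt,
            opA_single (i + 1) (by omega)] at e4
          have e5 := congrFun e4 ⟨i + 1 + 1, by omega⟩
          rw [Pi.add_apply, Pi.single_eq_same, Pi.single_eq_of_ne (by simp), zero_add] at e5
          exact e5.symm
      refine ⟨fun u => ?_, fun h u => ?_⟩
      · rw [e1 u, e3 u, Pi.single_zero, add_zero]
      · exact (sub_eq_zero.mp (e3 u)).symm
  have c1 : ∀ i u, f (Pi.single i u) = Pi.single i (φ u) := by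
    intro i u
    exact (key (n - i.1) i.1 i.2 (by have := i.2; omega)).1 u
  refine ⟨φ, ?_, ?_⟩
  · intro x i
    have hx : x = ∑ j, Pi.single j (x j) := (Finset.univ_sum_single x).symm
    conv_lhs => rw [hx]
    rw [map_sum, Finset.sum_apply]
    simp only [c1]
    rw [Finset.sum_eq_single i]
    · rw [Pi.single_eq_same]
    · intro j _ hj
      rw [Pi.single_eq_of_ne (Ne.symm hj)]
    · intro h
      exact absurd (Finset.mem_univ i) h
  · intro i u
    by_cases hi : i = 0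
    · subst hi
      have e := hB (Pi.single 0 u)
      rw [opB_single_zero, c1, c1, opB_single_zero] at e
      have e2 := congrFun e 0
      rwa [Pi.single_eq_same, Pi.single_eq_same] at e2
    · obtain ⟨i, hi'⟩ := i
      have hi0 : i ≠ 0 := fun h => hi (Fin.ext h)
      obtain ⟨j, rfl⟩ : ∃ j, i = j + 1 := ⟨i - 1, by omega⟩
      exact (key (n - j) j (by omega) (by omega)).2 hi' u

end QB46
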