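import Pool.Agent.Helper46.QB.EndA
import Pool.Agent.Helper46.QB.Decode

/-!
QB-10. `End_{AG m}(Y)` = the right multiplications by the elements of `BB`.

Proof. Take `g`, `φ` from `end_shape`. `pp s 0 (x, y) = x`, `pp s 1 (x, y) = y`: `g (x, y) = (φ 0 x, φ 1 y)`. `pp s 2 (x, y) = x + y`:
`φ 2 (x + y) = φ 0 x + φ 1 y`, so (`y = 0`, `x = 0`) `φ 2 = φ 0 = φ 1`. `pp s 3 (x, y) = opA x + y`: `φ 3 (opA x + y) = opA (φ 0 x) + φ 1 y`, so `φ 3 = φ 1`
(`x = 0`) and `φ 0 (opA x) = opA (φ 0 x)`. The same with `pp s 4` and `opB`. By `decode` `φ 0 x i = ψ (x i)`, `ψ (s i * u) = s i * ψ u`. As `s` is onto,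
`ψ u = ψ (u * 1) = u * ψ 1`. So `f y = op (ψ 1) • y` (componentwise).
-/

set_option autoImplicit false

namespace QB46

variable {BB : Type} [Ring BB] [Algebra (ZMod 2) BB] {n : ℕ} {s : Fin (n + 1) → BB} {m : Fin 5 → ℕ}

omit [Algebra (ZMod 2) BB] in
private theorem qb10_pp0 (p : (Fin (n + 1) → BB) × (Fin (n + 1) → BB)) : pp s 0 p = p.1 := by
  simp [pp]

omit [Algebra (ZMod 2) BB] in
private theorem qb10_pp1 (p : (Fin (n + 1) → BB) × (Fin (n + 1) → BB)) : pp s 1 p = p.2 := by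
  simp [pp]

omit [Algebra (ZMod 2) BB] in
private theorem qb10_pp2 (p : (Fin (n + 1) → BB) × (Fin (n + 1) → BB)) :
    pp s 2 p = p.1 + p.2 := by
  simp [pp]

omit [Algebra (ZMod 2) BB] in
private theorem qb10_pp3 (p : (Fin (n + 1) → BB) × (Fin (n + 1) → BB)) :
    pp s 3 p = opA BB n p.1 + p.2 := by
  simp [pp]

omit [Algebra (ZMod 2) BB] in
private theorem qb10_pp4 (p : (Fin (n + 1) → BB) × (Fin (n + 1) → BB)) :
    pp s 4 p = opB s p.1 + p.2 := by
  simp [pp]

theorem end_eq (hs : s (Fin.last n) = 0) (hsur : ∀ b : BB, ∃ i, s i = b) (h2 : ∀ i, 2 ≤ m i)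
    (f : YY s m →+ YY s m) (hf : ∀ (a : AG m) (y : YY s m), f (a • y) = a • f y) :
    ∃ b : BB, ∀ y : YY s m, f y = MulOpposite.op b • y := by
  obtain ⟨g, φ, hφ, hg⟩ := end_shape h2 f hf
  have e0 : ∀ p, (g p).1 = φ 0 p.1 := by
    intro p
    have := hφ 0 p
    rw [qb10_pp0, qb10_pp0] at this
    exact this.symm
  have e1 : ∀ p, (g p).2 = φ 1 p.2 := by
    intro p
    have := hφ 1 p
    rw [qb10_pp1, qb10_pp1] at this
    exact this.symm
  have e2 : ∀ x y, φ 2 (x + y) = φ 0 x + φ 1 y := by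
    intro x y
    have := hφ 2 (x, y)
    rw [qb10_pp2, qb10_pp2, e0, e1] at this
    exact this
  have e3 : ∀ x y, φ 3 (opA BB n x + y) = opA BB n (φ 0 x) + φ 1 y := by
    intro x y
    have := hφ 3 (x, y)
    rw [qb10_pp3, qb10_pp3, e0, e1] at this
    exact this
  have e4 : ∀ x y, φ 4 (opB s x + y) = opB s (φ 0 x) + φ 1 y := by
    intro x y
    have := hφ 4 (x, y)
    rw [qb10_pp4, qb10_pp4, e0, e1] at this
    exact this
  have f2 : ∀ x, φ 2 x = φ 0 x := by
    intro x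
    have := e2 x 0
    rwa [add_zero, map_zero, add_zero] at this
  have f1 : ∀ x, φ 1 x = φ 0 x := by
    intro x
    have := e2 0 x
    rw [zero_add, map_zero, zero_add] at this
    rw [← this, f2]
  have f3 : ∀ x, φ 3 x = φ 0 x := by
    intro x
    have := e3 0 x
    rw [map_zero, map_zero, map_zero, zero_add, zero_add] at this
    rw [this, f1]
  have f4 : ∀ x, φ 4 x = φ 0 x := by
    intro x
    have := e4 0 x
    rw [map_zero, map_zero, map_zero, zero_add, zero_add] at this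
    rw [this, f1]
  have hall : ∀ i x, φ i x = φ 0 x := by
    intro i x
    fin_cases i
    · rfl
    · exact f1 x
    · exact f2 x
    · exact f3 x
    · exact f4 x
  obtain ⟨ψ, hψ, hψs⟩ := decode s hs (φ 0) (fun x => by
      have := e3 x 0
      rwa [add_zero, map_zero, add_zero, f3] at this) (fun x => by
      have := e4 x 0
      rwa [add_zero, map_zero, add_zero, f4] at this)
  have hψ1 : ∀ u, ψ u = u * ψ 1 := by
    intro u
    obtain ⟨i, hi⟩ := hsur u
    have := hψs i 1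
    rwa [mul_one, hi] at this
  refine ⟨ψ 1, fun y => ?_⟩
  apply YY.ext
  · rw [(hg y).1]
    refine Prod.ext ?_ ?_
    · rw [e0]
      funext i
      rw [hψ, hψ1]
      rfl
    · rw [e1, f1]
      funext i
      rw [hψ, hψ1]
      rfl
  · intro i j
    rw [(hg y).2, hall]
    funext l
    rw [hψ, hψ1]
    rfl

/-- `BB` is faithful on `Y`. -/
theorem op_injective (h1 : ∀ i, 1 ≤ m i) {b b' : BB}
    (h : ∀ y : YY s m, MulOpposite.op b • y = MulOpposite.op b' • y) : b = b' := by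
  have h3 := h (((fun _ => 1), 0), 0)
  have h4 : (fun _ => (1 : BB) * b : Fin (n + 1) → BB) = fun _ => (1 : BB) * b' :=
    congrArg (fun y : YY s m => y.1.1) h3
  have h5 := congrFun h4 0
  rwa [one_mul, one_mul] at h5

end QB46
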