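import Pool.Agent.Helper46.QB.ClosTv

/-!
QB-06. `T : L` is perfect for sizes `≥ 3`, and centreless.

Proof. `tv i j l = [tv i j q, tv i q l]` for `q ≠ j, l` (sizes `≥ 3`; a matrix identity in one factor, `Matrix.transvection`), so with `closure_tv`
`lin g ∈ commutator` for all `g` (the preimage of the commutator subgroup under `lin`). `tr (ev i j) = ⁅lin (tv i j l), tr (ev i l)⁆`
(`act_tv`), and the `ev i j` generate `T` as an additive group (`T` is finite, entries in `F₂`), `tr_add`. Then `tr_mul_lin`.
Centre: `a` central. `lin g` commutes with `a`: `act g a.v = a.v` for all `g`, so by `act_tv` all `a.v i l = 0`. So `a.v = 0`, and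
`a = lin a.g` commutes with all `tr v`: `act a.g v = v`, so `a.g = 1` by `act_injective`.
-/

set_option autoImplicit false

namespace QB46

open scoped commutatorElement

variable {ι : Type} [DecidableEq ι] [Finite ι] {m : ι → ℕ}

private theorem pf_exists_ne2 {k : ℕ} (h3 : 3 ≤ k) (j l : Fin k) : ∃ q : Fin k, q ≠ j ∧ q ≠ l := by
  classical
  by_contra hcon
  push Not at hcon
  have h1 : (Finset.univ : Finset (Fin k)) ⊆ {j, l} := by
    intro q _
    rw [Finset.mem_insert, Finset.mem_singleton]
    by_cases h : q = j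
    · exact Or.inl h
    · exact Or.inr (hcon q h)
  have h2 := Finset.card_le_card h1
  rw [Finset.card_univ, Fintype.card_fin] at h2
  have h4 := Finset.card_le_two (a := j) (b := l)
  omega

private theorem pf_exists_ne {k : ℕ} (h2 : 2 ≤ k) (j : Fin k) : ∃ q : Fin k, q ≠ j := by
  by_contra hcon
  push Not at hcon
  have h3 := hcon ⟨0, by omega⟩
  have h4 := hcon ⟨1, by omega⟩
  rw [← h4] at h3
  simp at h3

omit [Finite ι] in
private theorem pf_ev_self (i : ι) (j : Fin (m i)) : (ev i j : T m) i j = 1 := by
  simp [ev]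

omit [Finite ι] in
private theorem pf_ev_ne (i : ι) {j l : Fin (m i)} (h : l ≠ j) : (ev i j : T m) i l = 0 := by
  simp [ev, h]

omit [Finite ι] in
private theorem pf_comm (i : ι) (j l q : Fin (m i)) (h : j ≠ l) (hqj : q ≠ j) (hql : q ≠ l) :
    tv i j l h = ⁅tv i j q hqj.symm, tv i q l hql⁆ := by
  rw [commutatorElement_def, eq_comm, mul_inv_eq_iff_eq_mul, mul_inv_eq_iff_eq_mul]
  apply act_injective
  intro v
  rw [act_mul, act_mul, act_mul, act_tv, act_tv, act_tv, act_tv, act_tv]
  simp only [Pi.add_apply, Pi.smul_apply, pf_ev_self, pf_ev_ne i h.symm, pf_ev_ne i hql.symm,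
    smul_eq_mul, mul_one, mul_zero, add_zero, add_smul]
  abel

theorem perfect (h3 : ∀ i, 3 ≤ m i) : commutator (AG m) = ⊤ := by
  have hlin : ∀ g : L m, lin g ∈ commutator (AG m) := by
    have h1 : Subgroup.closure {g : L m | ∃ (i : ι) (j l : Fin (m i)) (h : j ≠ l),
        g = tv i j l h} ≤ (commutator (AG m)).comap lin := by
      rw [Subgroup.closure_le]
      rintro g ⟨i, j, l, h, rfl⟩
      obtain ⟨q, hqj, hql⟩ := pf_exists_ne2 (h3 i) j l
      show lin (tv i j l h) ∈ commutator (AG m)
      rw [pf_comm i j l q h hqj hql, map_commutatorElement]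
      exact Subgroup.commutator_mem_commutator (Subgroup.mem_top _) (Subgroup.mem_top _)
    intro g
    rw [closure_tv] at h1
    exact h1 (Subgroup.mem_top g)
  have htr0 : ∀ (i : ι) (j : Fin (m i)), tr (ev i j : T m) ∈ commutator (AG m) := by
    intro i j
    obtain ⟨l, hl⟩ := pf_exists_ne (le_trans (by norm_num) (h3 i)) j
    have h1 : tr (ev i j : T m) = ⁅lin (tv i j l hl.symm), tr (ev i l : T m)⁆ := by
      rw [commutatorElement_def, lin_conj, eq_comm, mul_inv_eq_iff_eq_mul, ← tr_add, act_tv,
        pf_ev_self, one_smul, add_comm]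
    rw [h1]
    exact Subgroup.commutator_mem_commutator (Subgroup.mem_top _) (Subgroup.mem_top _)
  let F : AddSubgroup (T m) :=
    { carrier := {v | tr v ∈ commutator (AG m)}
      add_mem' := by
        intro a b ha hb
        show tr (a + b) ∈ commutator (AG m)
        rw [tr_add]
        exact Subgroup.mul_mem _ ha hb
      zero_mem' := by
        show tr (0 : T m) ∈ commutator (AG m)
        rw [tr_zero]
        exact Subgroup.one_mem _
      neg_mem' := by
        intro a ha
        show tr (-a) ∈ commutator (AG m)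
        have h1 : tr (-a) = (tr a)⁻¹ := by
          rw [eq_inv_iff_mul_eq_one, ← tr_add, neg_add_cancel, tr_zero]
        rw [h1]
        exact Subgroup.inv_mem _ ha }
  have hF : ∀ (g : L m), ∀ v ∈ F, act g v ∈ F := by
    intro g v hv
    show tr (act g v) ∈ commutator (AG m)
    rw [← lin_conj]
    exact (inferInstance : (commutator (AG m)).Normal).conj_mem _ hv _
  have htr : ∀ v : T m, tr v ∈ commutator (AG m) := by
    classical
    intro v
    have := Fintype.ofFinite ι
    have h1 : v ∈ F := by
      rw [← Finset.univ_sum_single v]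
      refine AddSubgroup.sum_mem _ fun i _ => ?_
      have h0 : 0 < m i := lt_of_lt_of_le (by norm_num) (h3 i)
      refine stable F hF (v := ev i ⟨0, h0⟩) (htr0 i _) (i := i) ?_
        (le_trans (by norm_num) (h3 i)) (v i)
      intro h2
      have h4 := congrFun h2 ⟨0, h0⟩
      rw [pf_ev_self] at h4
      exact one_ne_zero h4
    exact h1
  rw [eq_top_iff]
  intro a _
  rw [← tr_mul_lin a]
  exact Subgroup.mul_mem _ (htr _) (hlin _)

theorem center_eq (h2 : ∀ i, 2 ≤ m i) : Subgroup.center (AG m) = ⊥ := by
  rw [eq_bot_iff]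
  intro a ha
  rw [Subgroup.mem_center_iff] at ha
  rw [Subgroup.mem_bot]
  have hv : a.v = 0 := by
    funext i l
    obtain ⟨j, hj⟩ := pf_exists_ne (h2 i) l
    have h1 := congrArg AG.v (ha (lin (tv i j l hj)))
    rw [mul_v, mul_v, lin_v, lin_g, act_zero, zero_add, add_zero, act_tv] at h1
    have h3 : a.v i l • (ev i j : T m) = 0 := by
      have := congrArg (fun w => w - a.v) h1
      simpa using this
    have h4 := congrFun (congrFun h3 i) j
    rw [Pi.smul_apply, Pi.smul_apply, pf_ev_self, smul_eq_mul, mul_one] at h4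
    exact h4
  have hg : a.g = 1 := by
    apply act_injective
    intro v
    have h1 := congrArg AG.v (ha (tr v))
    rw [mul_v, mul_v, tr_v, tr_g, act_one, hv, add_zero, zero_add] at h1
    rw [← h1, act_one]
  apply AG.ext
  · exact hv
  · exact hg

end QB46
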