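import Pool.Agent.Helper46.QB.Complete
import Pool.Agent.Helper46.QB.Perfect
import Pool.Agent.Helper46.QB.Card
import Pool.Agent.Helper46.QB.EndB

/-!
QB-11. The base of the tower: for every finite `F₂`-algebra `BB` there are a finite complete perfect group
`C` of order prime to `151` and a faithful `C`-module `Y` with `End_C(Y) = BBᵒᵖ` and `Y^C = 0`.
-/

set_option autoImplicit false

namespace QB46

/-- The sizes `4, 6, 8, 10, 12`. -/
def sz : Fin 5 → ℕ := ![4, 6, 8, 10, 12]

theorem base (BB : Type) [Ring BB] [Algebra (ZMod 2) BB] [Finite BB] [Nontrivial BB] :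
    ∃ (C : Type) (_ : Group C) (_ : Finite C) (Y : Type) (_ : AddCommGroup Y)
      (_ : Module (ZMod 2) Y) (_ : Finite Y) (_ : DistribMulAction C Y) (_ : Module BBᵐᵒᵖ Y)
      (_ : SMulCommClass C BBᵐᵒᵖ Y),
      commutator C = ⊤ ∧ Subgroup.center C = ⊥ ∧ (∀ θ : MulAut C, ∃ c : C, θ = MulAut.conj c) ∧
      ¬ 151 ∣ Nat.card C ∧ ¬ 257 ∣ Nat.card C ∧
      (∀ f : Y →+ Y, (∀ (c : C) (y : Y), f (c • y) = c • f y) →
        ∃ b : BB, ∀ y : Y, f y = MulOpposite.op b • y) ∧
      (∀ b b' : BB, (∀ y : Y, MulOpposite.op b • y = MulOpposite.op b' • y) → b = b') ∧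
      (∀ y : Y, (∀ c : C, c • y = y) → y = 0) ∧ (∀ c : C, (∀ y : Y, c • y = y) → c = 1) := by
  classical
  have hsz : ∀ i, 4 ≤ sz i ∧ Even (sz i) ∧ sz i ≤ 14 := by decide
  have hinj : Function.Injective sz := by decide
  obtain ⟨e⟩ : Nonempty (Fin (Nat.card BB) ≃ BB) := ⟨(Finite.equivFin BB).symm⟩
  let s : Fin (Nat.card BB + 1) → BB := fun i => if h : (i : ℕ) < Nat.card BB then e ⟨i, h⟩ else 0
  have hs : s (Fin.last _) = 0 := by simp [s]
  have hsur : ∀ b : BB, ∃ i, s i = b := fun b => ⟨(e.symm b).castSucc, by simp [s]⟩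
  refine ⟨AG sz, inferInstance, inferInstance, YY s sz, inferInstance, inferInstance, inferInstance,
    inferInstance, inferInstance, inferInstance, perfect (fun i => by have := (hsz i).1; omega),
    center_eq (fun i => by have := (hsz i).1; omega),
    complete (fun i => (hsz i).2.1) (fun i => (hsz i).1) hinj, card_AG (fun i => (hsz i).2.2),
    card_AG' (fun i => (hsz i).2.2), end_eq hs hsur (fun i => by have := (hsz i).1; omega),
    fun b b' h => op_injective (fun i => by have := (hsz i).1; omega) h,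
    fun y h => inv_zero (fun i => by have := (hsz i).1; omega) h,
    fun c h => faithful (fun i => by have := (hsz i).1; omega) h⟩

end QB46
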