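import Pool.Agent.Helper46.QB.Transv

/-!
QB-01b. `L` is generated by the transvections.

For one factor: every `A ∈ GL_m(F₂)` is a product of transvections
  (`Matrix.Pivot.exists_list_transvec_mul_diagonal_mul_list_transvec`: `A = t₁ ⋯ D ⋯ t_r`, `D` diagonal and invertible over `F₂`, so
  `D = 1`; the coefficients of the transvections in `F₂` are `0` or `1`). For the product of groups: `ι` is finite, an element of
  `L` is the (commuting) product of the `Pi.mulSingle i (g i)` (`Subgroup.pi_le_iff`, `Subgroup.closure_pi` or `Finset.noncommProd_mulSingle`;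
  `Pi.mulSingle i` is a group hom `MonoidHom.mulSingle`).
-/

set_option autoImplicit false

namespace QB46

variable {ι : Type} [DecidableEq ι] {m : ι → ℕ}

theorem closure_tv [Finite ι] :
    Subgroup.closure {g : L m | ∃ (i : ι) (j l : Fin (m i)) (h : j ≠ l), g = tv i j l h} = ⊤ := by
  rw [eq_top_iff]
  intro x _
  refine Subgroup.pi_mem_of_mulSingle_mem x ?_
  intro i
  have key : ∀ g : GL (Fin (m i)) (ZMod 2), (g : Matrix (Fin (m i)) (Fin (m i)) (ZMod 2)) =
      (x i : Matrix (Fin (m i)) (Fin (m i)) (ZMod 2)) → (Pi.mulSingle i g : L m) ∈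
      Subgroup.closure {g : L m | ∃ (i : ι) (j l : Fin (m i)) (h : j ≠ l), g = tv i j l h} := by
    refine Matrix.diagonal_transvection_induction_of_det_ne_zero
      (fun M => ∀ g : GL (Fin (m i)) (ZMod 2), (g : Matrix (Fin (m i)) (Fin (m i)) (ZMod 2)) = M →
        (Pi.mulSingle i g : L m) ∈
        Subgroup.closure {g : L m | ∃ (i : ι) (j l : Fin (m i)) (h : j ≠ l), g = tv i j l h})
      (x i : Matrix (Fin (m i)) (Fin (m i)) (ZMod 2)) ?_ ?_ ?_ ?_
    · exact ((Matrix.isUnit_iff_isUnit_det _).mp (x i).isUnit).ne_zero
    · intro D hD g hg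
      have h1 : ∀ j, D j = 1 := by
        intro j
        rw [Matrix.det_diagonal] at hD
        have h2 := Finset.prod_ne_zero_iff.mp hD j (Finset.mem_univ j)
        have h3 : ∀ z : ZMod 2, z ≠ 0 → z = 1 := by decide
        exact h3 _ h2
      have h2 : g = 1 := by
        apply Units.ext
        rw [hg]
        have : D = fun _ => 1 := funext h1
        rw [this]
        simp
      rw [h2, Pi.mulSingle_one]
      exact Subgroup.one_mem _
    · intro t g hg
      obtain ⟨j, l, hjl, c⟩ := t
      rw [Matrix.TransvectionStruct.toMatrix_mk] at hg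
      have h3 : ∀ z : ZMod 2, z = 0 ∨ z = 1 := by decide
      rcases h3 c with hc | hc
      · have h2 : g = 1 := by
          apply Units.ext
          rw [hg, hc]
          simp
        rw [h2, Pi.mulSingle_one]
        exact Subgroup.one_mem _
      · apply Subgroup.subset_closure
        refine ⟨i, j, l, hjl, ?_⟩
        have h2 : g = Matrix.GeneralLinearGroup.mkOfDetNeZero
            (Matrix.transvection j l (1 : ZMod 2))
            (by rw [Matrix.det_transvection_of_ne _ _ hjl]; exact one_ne_zero) := by
          apply Units.ext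
          rw [hg, hc]
          rfl
        rw [h2]
        rfl
    · intro A B hA hB h1 h2 g hg
      have h3 : g = Matrix.GeneralLinearGroup.mkOfDetNeZero A hA *
          Matrix.GeneralLinearGroup.mkOfDetNeZero B hB := by
        apply Units.ext
        rw [hg]
        rfl
      rw [h3, Pi.mulSingle_mul]
      exact Subgroup.mul_mem _ (h1 _ rfl) (h2 _ rfl)
  exact key (x i) rfl

end QB46
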