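import Pool.Agent.Helper46.QB.Transv

/-!
QB-03. An additive bijection `γ` of `T` which normalises the action of `L` is given by an element of `L`.

Proof. `γ (act g v) = act (δ g) (γ v)` with `δ : L → L` surjective. For `i : ι` put `T_i = {v | ∀ j ≠ i, v j = 0}` (`= range (Pi.single i)`).
`γ (T_i)` is stable under `L` (as `δ` is onto) and not `0`, so by `stable` it contains `T_j` for some `j`; the same for `γ⁻¹`
(`γ⁻¹ (act (δ g) w) = act g (γ⁻¹ w)`, so `γ⁻¹ (T_j)` is stable under `L`): `γ⁻¹ (T_j) ⊆ T_i` is stable and non zero, so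
it contains `T_i` (a stable subgroup of `T_i` which is not `0` contains some `T_k`, `k = i`). So `γ (T_i) = T_j` and
`2 ^ m i = 2 ^ m j`, so `i = j` by injectivity of `m`. So `γ (Pi.single i w) = Pi.single i (γ_i w)` with an additive (so `F₂`-linear) bijection
`γ_i` of `Fin (m i) → ZMod 2`, which is the multiplication by an invertible matrix `l i` (`LinearMap.toMatrix'`,
`Matrix.GeneralLinearGroup.toLin` / `LinearEquiv`). By additivity `γ v = act l v` (`v = ∑ i, Pi.single i (v i)`, `Finset.univ_sum_single`; get a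
`Fintype ι` from `Finite ι`).
-/

set_option autoImplicit false

namespace QB46

variable {ι : Type} [DecidableEq ι] [Finite ι] {m : ι → ℕ}

omit [Finite ι] in
/-- The summand `T_i`. -/
private def gTI (i : ι) : AddSubgroup (T m) where
  carrier := {v | ∀ j, j ≠ i → v j = 0}
  add_mem' := by
    intro a b ha hb j hj
    rw [Pi.add_apply, ha j hj, hb j hj, add_zero]
  zero_mem' := by
    intro j _
    rfl
  neg_mem' := by
    intro a ha j hj
    rw [Pi.neg_apply, ha j hj, neg_zero]

omit [Finite ι] in
private theorem single_mem_gTI (i : ι) (w : Fin (m i) → ZMod 2) :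
    (Pi.single i w : T m) ∈ gTI i := by
  intro j hj
  exact Pi.single_eq_of_ne hj _

omit [Finite ι] in
private theorem eq_single_of_mem {i : ι} {v : T m} (hv : v ∈ gTI i) :
    v = (Pi.single i (v i) : T m) := by
  funext j
  by_cases h : j = i
  · subst h
    rw [Pi.single_eq_same]
  · rw [Pi.single_eq_of_ne h]
    exact hv j h

omit [Finite ι] in
private theorem act_mem_gTI {i : ι} (g : L m) {v : T m} (hv : v ∈ gTI i) : act g v ∈ gTI i := by
  intro j hj
  show (g j : Matrix (Fin (m j)) (Fin (m j)) (ZMod 2)).mulVec (v j) = 0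
  rw [hv j hj, Matrix.mulVec_zero]

omit [Finite ι] in
private theorem gam_key (h2 : ∀ i, 2 ≤ m i) (hm : Function.Injective m) (γ : T m ≃+ T m)
    (δ : L m → L m) (hδ : Function.Surjective δ)
    (hγ : ∀ (g : L m) (v : T m), γ (act g v) = act (δ g) (γ v)) (i : ι)
    (w : Fin (m i) → ZMod 2) : γ (Pi.single i w) ∈ gTI i := by
  -- the image of `T_i`
  set F : AddSubgroup (T m) := (gTI i).map (γ : T m →+ T m) with hF
  have hFs : ∀ (g : L m), ∀ v ∈ F, act g v ∈ F := by
    rintro g _ ⟨v, hv, rfl⟩
    obtain ⟨g', rfl⟩ := hδ g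
    refine ⟨act g' v, act_mem_gTI g' hv, ?_⟩
    exact hγ g' v
  -- a non zero vector of `T_i`
  let w0 : Fin (m i) → ZMod 2 := fun _ => 1
  have hw0 : w0 ≠ 0 := by
    intro h
    have h1 : (1 : ZMod 2) = 0 := congrFun h ⟨0, by have := h2 i; omega⟩
    exact one_ne_zero h1
  have hs0 : (Pi.single i w0 : T m) ≠ 0 := by
    intro h
    apply hw0
    have := congrFun h i
    rwa [Pi.single_eq_same] at this
  have hγ0 : γ (Pi.single i w0) ≠ 0 := by
    intro h
    exact hs0 (γ.injective (h.trans (map_zero γ).symm))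
  obtain ⟨j, hj⟩ : ∃ j, (γ (Pi.single i w0)) j ≠ 0 := by
    by_contra hcon
    push Not at hcon
    exact hγ0 (funext hcon)
  have hjF : ∀ u : Fin (m j) → ZMod 2, (Pi.single j u : T m) ∈ F := fun u =>
    stable F hFs (v := γ (Pi.single i w0)) ⟨_, single_mem_gTI i w0, rfl⟩ hj (h2 j) u
  -- the preimage of `T_j`
  set F' : AddSubgroup (T m) := (gTI j).comap (γ : T m →+ T m) with hF'
  have hFs' : ∀ (g : L m), ∀ v ∈ F', act g v ∈ F' := by
    intro g v hv
    show γ (act g v) ∈ gTI j
    rw [hγ]
    exact act_mem_gTI _ hv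
  let u0 : Fin (m j) → ZMod 2 := fun _ => 1
  have hu0 : u0 ≠ 0 := by
    intro h
    have h1 : (1 : ZMod 2) = 0 := congrFun h ⟨0, by have := h2 j; omega⟩
    exact one_ne_zero h1
  obtain ⟨v0, hv0, hv0'⟩ := hjF u0
  have hv0'' : γ v0 = Pi.single j u0 := hv0'
  have hv0i : v0 i ≠ 0 := by
    intro h
    have h1 : v0 = 0 := by
      rw [eq_single_of_mem hv0, h, Pi.single_zero]
    rw [h1, map_zero] at hv0''
    apply hu0
    have := congrFun hv0''.symm j
    rwa [Pi.single_eq_same] at this
  have hiF' : ∀ u : Fin (m i) → ZMod 2, γ (Pi.single i u : T m) ∈ gTI j := fun u =>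
    stable F' hFs' (v := v0) (by
      show γ v0 ∈ gTI j
      rw [hv0'']
      exact single_mem_gTI j u0) hv0i (h2 i) u
  -- counting
  have hij : i = j := by
    apply hm
    let f : (Fin (m i) → ZMod 2) → (Fin (m j) → ZMod 2) := fun u => (γ (Pi.single i u : T m)) j
    have hf : Function.Bijective f := by
      constructor
      · intro u u' huu
        have h1 : γ (Pi.single i u : T m) = γ (Pi.single i u' : T m) := by
          rw [eq_single_of_mem (hiF' u), eq_single_of_mem (hiF' u')]
          exact congrArg (fun x => (Pi.single j x : T m)) huu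
        exact Pi.single_injective i (γ.injective h1)
      · intro u
        obtain ⟨v, hv, hv'⟩ := hjF u
        have hv'' : γ v = Pi.single j u := hv'
        refine ⟨v i, ?_⟩
        show (γ (Pi.single i (v i) : T m)) j = u
        rw [← eq_single_of_mem hv, hv'', Pi.single_eq_same]
    have h1 := Fintype.card_of_bijective hf
    rw [Fintype.card_fun, Fintype.card_fun, ZMod.card, Fintype.card_fin, Fintype.card_fin] at h1
    exact Nat.pow_right_injective le_rfl h1
  subst hij
  exact hiF' w

theorem gamma_mem (h2 : ∀ i, 2 ≤ m i) (hm : Function.Injective m) (γ : T m ≃+ T m)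
    (δ : L m → L m) (hδ : Function.Surjective δ)
    (hγ : ∀ (g : L m) (v : T m), γ (act g v) = act (δ g) (γ v)) :
    ∃ l : L m, ∀ v : T m, γ v = act l v := by
  classical
  have := Fintype.ofFinite ι
  have hkey := gam_key h2 hm γ δ hδ hγ
  -- the components
  let f : ∀ i, (Fin (m i) → ZMod 2) →+ (Fin (m i) → ZMod 2) := fun i =>
    { toFun := fun u => (γ (Pi.single i u : T m)) i
      map_zero' := by rw [Pi.single_zero, map_zero]; rfl
      map_add' := fun a b => by rw [Pi.single_add, map_add]; rfl }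
  let fl : ∀ i, (Fin (m i) → ZMod 2) →ₗ[ZMod 2] (Fin (m i) → ZMod 2) := fun i =>
    (f i).toZModLinearMap 2
  have hfl : ∀ i u, fl i u = (γ (Pi.single i u : T m)) i := fun i u => rfl
  have hinj : ∀ i, Function.Injective (fl i) := by
    intro i u u' huu
    have h1 : γ (Pi.single i u : T m) = γ (Pi.single i u' : T m) := by
      rw [eq_single_of_mem (hkey i u), eq_single_of_mem (hkey i u')]
      exact congrArg (fun x => (Pi.single i x : T m)) huu
    exact Pi.single_injective i (γ.injective h1)
  let e : ∀ i, (Fin (m i) → ZMod 2) ≃ₗ[ZMod 2] (Fin (m i) → ZMod 2) := fun i =>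
    LinearEquiv.ofInjectiveEndo (fl i) (hinj i)
  let l : L m := fun i =>
    ⟨LinearMap.toMatrix' (e i : (Fin (m i) → ZMod 2) →ₗ[ZMod 2] (Fin (m i) → ZMod 2)),
      LinearMap.toMatrix' ((e i).symm : (Fin (m i) → ZMod 2) →ₗ[ZMod 2] (Fin (m i) → ZMod 2)),
      by rw [← LinearMap.toMatrix'_comp, LinearEquiv.comp_coe, LinearEquiv.symm_trans_self,
          LinearEquiv.refl_toLinearMap, LinearMap.toMatrix'_id],
      by rw [← LinearMap.toMatrix'_comp, LinearEquiv.comp_coe, LinearEquiv.self_trans_symm,
          LinearEquiv.refl_toLinearMap, LinearMap.toMatrix'_id]⟩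
  refine ⟨l, fun v => ?_⟩
  have h1 : v = ∑ i, (Pi.single i (v i) : T m) := (Finset.univ_sum_single v).symm
  have h2' : γ v = ∑ i, (Pi.single i (fl i (v i)) : T m) := by
    conv_lhs => rw [h1]
    rw [map_sum]
    refine Finset.sum_congr rfl fun i _ => ?_
    exact eq_single_of_mem (hkey i (v i))
  rw [h2']
  funext i
  rw [Finset.sum_apply, Finset.sum_eq_single i]
  · rw [Pi.single_eq_same]
    show fl i (v i) = (LinearMap.toMatrix' (e i : (Fin (m i) → ZMod 2) →ₗ[ZMod 2]
      (Fin (m i) → ZMod 2))).mulVec (v i)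
    rw [LinearMap.toMatrix'_mulVec]
    rfl
  · intro j _ hj
    exact Pi.single_eq_of_ne (Ne.symm hj) _
  · intro h
    exact absurd (Finset.mem_univ _) h

end QB46
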