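import Pool.Agent.Helper46.QB.ClosTv

/-!
QB-04. `H¹(L, T) = 0` for even sizes `≥ 4` (the t-trick).

Proof. Let `w = !![0, 1; 1, 1]` (order 3 in `GL_2(F₂)`, `1 + w + w² = 0`, so `w x = x` only for `x = 0`; the same for `w⁻¹`).
For a sign vector `ε` let `t_ε ∈ GL_{2e}(F₂)` be the block diagonal matrix with the blocks `w` or `w⁻¹` (use
`Fin (2 e) ≃ Fin e × Fin 2`, `Matrix.blockDiagonal`), and `t ∈ L` with all components of this form.
(1) `t` has no non zero fixed vector in `T`, so `v ↦ v - act t v` is injective, so bijective (`T` finite), on `T`.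
(2) If `f` is a cocycle with `f t = 0` and `g` commutes with `t` then `f g + act g (f t) = f (g t) = f (t g) = f t + act t (f g)`, so
`f g = act t (f g)` and `f g = 0`.
(3) Subtract a coboundary so that `f t₀ = 0` for `t₀` = all blocks `w`. All the other `t` (arbitrary signs in every block of every factor) commute with `t₀`,
so `f t = 0` for all of them and `f` vanishes on all their centralisers.
(4) For two blocks `r ≠ s` of the factor `i` and `x ∈ M₂(F₂)` let `e(x)` be the elementary block matrix `1 + E_rs(x)`.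
`M₂(F₂) = {x | w x = x w} + {x | w x = x w⁻¹}` (four and four matrices, `decide`), and `e(x)` commutes with a `t` whose blocks `r, s`
are `w, w` resp. `w, w⁻¹` (blocks `t_r x = x t_s`). As `e(x + y) = e(x) e(y)`, `f (e(x)) = 0` for all `x` (`f` vanishes on products).
(5) So `f` vanishes on all `tv i j l` with `j, l` in different blocks; for `j, l` in the same block take `q` in another block
(`m i ≥ 4`) and `tv i j l = [tv i j q, tv i q l]` (commutator). The set of zeros of `f` is a subgroup, so by `closure_tv` `f = 0`.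
Instead of a second choice of `f` one can take `v` with `f t₀ = v - act t₀ v` and `f' g = f g - (v - act g v)`.
-/

set_option autoImplicit false

namespace QB46

/-! ### Two by two matrices over `F₂` -/

/-- The two matrices of order three. -/
private def wd (b : Bool) : Matrix (Fin 2) (Fin 2) (ZMod 2) :=
  if b then !![1, 1; 1, 0] else !![0, 1; 1, 1]

private theorem wd_comm (b c : Bool) : wd b * wd c = wd c * wd b := by
  revert b c; decide

private theorem wd_sq (b : Bool) : 1 + wd b + wd b * wd b = 0 := by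
  revert b; decide

private theorem wd_inv (b : Bool) : wd b * wd (!b) = 1 := by
  revert b; decide

private theorem wd_inv' (b : Bool) : wd (!b) * wd b = 1 := by
  revert b; decide

private theorem wd_split (x : Matrix (Fin 2) (Fin 2) (ZMod 2)) :
    ∃ y z, x = y + z ∧ wd false * y = y * wd false ∧ wd false * z = z * wd true := by
  obtain ⟨a, ha⟩ : ∃ a, a = x 0 0 := ⟨_, rfl⟩
  obtain ⟨b, hb⟩ : ∃ b, b = x 0 1 := ⟨_, rfl⟩
  obtain ⟨c, hc⟩ : ∃ c, c = x 1 0 := ⟨_, rfl⟩
  obtain ⟨d, hd⟩ : ∃ d, d = x 1 1 := ⟨_, rfl⟩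
  have hx : x = !![a, b; c, d] := by
    rw [ha, hb, hc, hd]
    exact Matrix.eta_fin_two x
  refine ⟨!![a + b + c, a + d; a + d, b + c + d], !![b + c, a + b + d; a + c + d, b + c], ?_, ?_, ?_⟩
  · rw [hx]
    clear hx ha hb hc hd x
    revert a b c d; decide
  · clear hx ha hb hc hd x
    revert a b c d; decide
  · clear hx ha hb hc hd x
    revert a b c d; decide

/-! ### Block matrices -/

section Block

variable {e n : ℕ}

/-- Block matrices as matrices. -/
private noncomputable def Ph (φ : Fin n ≃ Fin e × Fin 2) :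
    Matrix (Fin e) (Fin e) (Matrix (Fin 2) (Fin 2) (ZMod 2)) ≃+*
      Matrix (Fin n) (Fin n) (ZMod 2) :=
  (Matrix.compRingEquiv (Fin e) (Fin 2) (ZMod 2)).trans
    (Matrix.reindexAlgEquiv (ZMod 2) (ZMod 2) φ.symm).toRingEquiv

private theorem Ph_single (φ : Fin n ≃ Fin e × Fin 2) (j l : Fin n) :
    Ph φ (Matrix.single (φ j).1 (φ l).1 (Matrix.single (φ j).2 (φ l).2 1)) =
      Matrix.single j l 1 := by
  ext a b
  change Matrix.comp _ _ _ _ _ (Matrix.single (φ j).1 (φ l).1
    (Matrix.single (φ j).2 (φ l).2 (1 : ZMod 2))) (φ a) (φ b) = _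
  rw [Matrix.comp_single_single]
  simp only [Matrix.single_apply, Prod.mk.eta, EmbeddingLike.apply_eq_iff_eq]

/-- The block diagonal matrix with the blocks `wd (ε r)`. -/
private def dU (ε : Fin e → Bool) :
    (Matrix (Fin e) (Fin e) (Matrix (Fin 2) (Fin 2) (ZMod 2)))ˣ where
  val := Matrix.diagonal fun r => wd (ε r)
  inv := Matrix.diagonal fun r => wd (!ε r)
  val_inv := by
    rw [Matrix.diagonal_mul_diagonal]
    simp only [wd_inv]
    exact Matrix.diagonal_one
  inv_val := by
    rw [Matrix.diagonal_mul_diagonal]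
    simp only [wd_inv']
    exact Matrix.diagonal_one

private theorem dU_comm (ε ε' : Fin e → Bool) : dU ε * dU ε' = dU ε' * dU ε := by
  apply Units.ext
  change Matrix.diagonal _ * Matrix.diagonal _ = Matrix.diagonal _ * Matrix.diagonal _
  rw [Matrix.diagonal_mul_diagonal, Matrix.diagonal_mul_diagonal]
  congr 1
  funext r
  exact wd_comm _ _

private theorem dU_sq (ε : Fin e → Bool) :
    1 + (dU ε).val + (dU ε).val * (dU ε).val = 0 := by
  change 1 + Matrix.diagonal _ + Matrix.diagonal _ * Matrix.diagonal _ = 0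
  rw [Matrix.diagonal_mul_diagonal, ← Matrix.diagonal_one, Matrix.diagonal_add,
    Matrix.diagonal_add]
  simp only [wd_sq]
  exact Matrix.diagonal_zero

/-- The elementary block matrix `1 + E_rs(x)`. -/
private def eU (r s : Fin e) (h : r ≠ s) (x : Matrix (Fin 2) (Fin 2) (ZMod 2)) :
    (Matrix (Fin e) (Fin e) (Matrix (Fin 2) (Fin 2) (ZMod 2)))ˣ where
  val := 1 + Matrix.single r s x
  inv := 1 - Matrix.single r s x
  val_inv := by
    rw [add_mul, mul_sub, mul_sub, Matrix.single_mul_single_of_ne _ _ _ _ h.symm]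
    simp
  inv_val := by
    rw [sub_mul, mul_add, mul_add, Matrix.single_mul_single_of_ne _ _ _ _ h.symm]
    simp

private theorem eU_add (r s : Fin e) (h : r ≠ s) (x y : Matrix (Fin 2) (Fin 2) (ZMod 2)) :
    eU r s h (x + y) = eU r s h x * eU r s h y := by
  apply Units.ext
  change 1 + Matrix.single r s (x + y) = (1 + Matrix.single r s x) * (1 + Matrix.single r s y)
  rw [add_mul, mul_add, mul_add, Matrix.single_mul_single_of_ne _ _ _ _ h.symm,
    Matrix.single_add]
  simp [add_assoc, add_comm]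

private theorem eU_comm (r s : Fin e) (h : r ≠ s) (x : Matrix (Fin 2) (Fin 2) (ZMod 2))
    (ε : Fin e → Bool) (hx : wd (ε r) * x = x * wd (ε s)) :
    eU r s h x * dU ε = dU ε * eU r s h x := by
  apply Units.ext
  change (1 + Matrix.single r s x) * Matrix.diagonal _ =
    Matrix.diagonal _ * (1 + Matrix.single r s x)
  rw [add_mul, mul_add, one_mul, mul_one]
  congr 1
  ext a b : 1
  rw [Matrix.mul_diagonal, Matrix.diagonal_mul]
  by_cases hab : r = a ∧ s = b
  · obtain ⟨rfl, rfl⟩ := hab
    rw [Matrix.single_apply_same]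
    exact hx.symm
  · rw [Matrix.single_apply_of_ne _ _ _ _ _ hab, zero_mul, mul_zero]

end Block

/-! ### Cocycles -/

variable {ι : Type} [DecidableEq ι] [Finite ι] {m : ι → ℕ}

private theorem two_T (v : T m) : v + v = 0 := by
  funext i j
  exact CharTwo.add_self_eq_zero (v i j)

private theorem act_sq (t : L m)
    (ht : ∀ i, 1 + (t i).val + (t i).val * (t i).val = 0) (v : T m) :
    v + act t v + act t (act t v) = 0 := by
  funext i
  change v i + (t i).val.mulVec (v i) + (t i).val.mulVec ((t i).val.mulVec (v i)) = 0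
  have h := congrArg (fun M : Matrix (Fin (m i)) (Fin (m i)) (ZMod 2) => M.mulVec (v i)) (ht i)
  simp only [Matrix.add_mulVec, Matrix.one_mulVec, Matrix.zero_mulVec] at h
  rw [Matrix.mulVec_mulVec]
  exact h

private theorem act_fix (t : L m)
    (ht : ∀ i, 1 + (t i).val + (t i).val * (t i).val = 0) (v : T m) (hv : act t v = v) :
    v = 0 := by
  have h := act_sq t ht v
  rw [hv, hv, two_T, zero_add] at h
  exact h

private theorem act_surj (t : L m)
    (ht : ∀ i, 1 + (t i).val + (t i).val * (t i).val = 0) (c : T m) :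
    ∃ v : T m, c = v - act t v := by
  refine ⟨c - act t (act t c), ?_⟩
  have h := act_sq t ht c
  have h2 := act_sq t ht (act t c)
  rw [act_sub]
  have h3 : act t (act t (act t c)) = c := by
    have h4 : act t c + act t (act t c) + act t (act t (act t c)) =
      c + act t c + act t (act t c) := by rw [h, h2]
    have h5 : (act t c + act t (act t c)) + act t (act t (act t c)) =
      (act t c + act t (act t c)) + c := by rw [h4]; abel
    exact add_left_cancel h5
  rw [h3]
  have h6 : c - act t (act t c) - (act t c - c) =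
    c - (c + act t c + act t (act t c)) + (c + c) := by abel
  rw [h6, h, two_T]
  simp

/-- The zeros of a cocycle. -/
private def zer (f : L m → T m) (hf : ∀ g h, f (g * h) = f g + act g (f h)) :
    Subgroup (L m) where
  carrier := {g | f g = 0}
  mul_mem' := by
    intro a b ha hb
    change f (a * b) = 0
    rw [hf, show f a = 0 from ha, show f b = 0 from hb, act_zero, add_zero]
  one_mem' := by
    change f 1 = 0
    have h := hf 1 1
    rw [mul_one, act_one] at h
    exact left_eq_add.1 h
  inv_mem' := by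
    intro a ha
    change f a⁻¹ = 0
    have h1 : f 1 = 0 := by
      have h := hf 1 1
      rw [mul_one, act_one] at h
      exact left_eq_add.1 h
    have h2 := hf a⁻¹ a
    rw [inv_mul_cancel, h1, show f a = 0 from ha, act_zero, add_zero] at h2
    exact h2.symm

private theorem zer_comm (f : L m → T m) (hf : ∀ g h, f (g * h) = f g + act g (f h)) (t g : L m)
    (ht : ∀ i, 1 + (t i).val + (t i).val * (t i).val = 0) (hft : f t = 0)
    (hc : g * t = t * g) : f g = 0 := by
  apply act_fix t ht
  have h1 := hf g t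
  have h2 := hf t g
  rw [hc, h2, hft, act_zero, zero_add, add_zero] at h1
  exact h1

variable {e : ι → ℕ} (φ : ∀ i, Fin (m i) ≃ Fin (e i) × Fin 2)

/-- The elements `t`. -/
private noncomputable def DD (ε : ∀ i, Fin (e i) → Bool) : L m :=
  fun i => Units.map (Ph (φ i)).toRingHom.toMonoidHom (dU (ε i))

omit [DecidableEq ι] [Finite ι] in
private theorem DD_sq (ε : ∀ i, Fin (e i) → Bool) (i : ι) :
    1 + (DD φ ε i).val + (DD φ ε i).val * (DD φ ε i).val = 0 := by
  change 1 + Ph (φ i) (dU (ε i)).val + Ph (φ i) (dU (ε i)).val * Ph (φ i) (dU (ε i)).val = 0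
  rw [← map_mul, ← map_one (Ph (φ i)), ← map_add, ← map_add, dU_sq, map_zero]

omit [DecidableEq ι] [Finite ι] in
private theorem DD_comm (ε ε' : ∀ i, Fin (e i) → Bool) :
    DD φ ε * DD φ ε' = DD φ ε' * DD φ ε := by
  funext i
  change Units.map _ _ * Units.map _ _ = Units.map _ _ * Units.map _ _
  rw [← map_mul, ← map_mul, dU_comm]

/-- The elements `e(x)`. -/
private noncomputable def EE (i : ι) (r s : Fin (e i)) (h : r ≠ s)
    (x : Matrix (Fin 2) (Fin 2) (ZMod 2)) : L m :=
  Pi.mulSingle i (Units.map (Ph (φ i)).toRingHom.toMonoidHom (eU r s h x))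

omit [Finite ι] in
private theorem EE_add (i : ι) (r s : Fin (e i)) (h : r ≠ s)
    (x y : Matrix (Fin 2) (Fin 2) (ZMod 2)) :
    EE φ i r s h (x + y) = EE φ i r s h x * EE φ i r s h y := by
  unfold EE
  rw [eU_add, map_mul, Pi.mulSingle_mul]

omit [Finite ι] in
private theorem EE_comm (i : ι) (r s : Fin (e i)) (h : r ≠ s)
    (x : Matrix (Fin 2) (Fin 2) (ZMod 2)) (ε : ∀ i, Fin (e i) → Bool)
    (hx : wd (ε i r) * x = x * wd (ε i s)) :
    EE φ i r s h x * DD φ ε = DD φ ε * EE φ i r s h x := by
  funext i'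
  by_cases hi : i' = i
  · subst hi
    change EE φ i' r s h x i' * DD φ ε i' = DD φ ε i' * EE φ i' r s h x i'
    unfold EE DD
    rw [Pi.mulSingle_eq_same, ← map_mul, ← map_mul, eU_comm r s h x (ε i') hx]
  · change EE φ i r s h x i' * DD φ ε i' = DD φ ε i' * EE φ i r s h x i'
    unfold EE
    rw [Pi.mulSingle_eq_of_ne hi, one_mul, mul_one]

omit [Finite ι] in
private theorem EE_tv (i : ι) (j l : Fin (m i)) (h : j ≠ l) (h' : (φ i j).1 ≠ (φ i l).1) :
    tv i j l h = EE φ i (φ i j).1 (φ i l).1 h' (Matrix.single (φ i j).2 (φ i l).2 1) := by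
  unfold tv EE
  congr 1
  apply Units.ext
  change Matrix.transvection j l 1 = Ph (φ i) (1 + Matrix.single _ _ _)
  rw [map_add, map_one, Ph_single]
  rfl

omit [Finite ι] in
private theorem tv_same (i : ι) (j l q : Fin (m i)) (h : j ≠ l) (h1 : j ≠ q) (h2 : q ≠ l) :
    tv i j l h * tv i q l h2 * tv i j q h1 = tv i j q h1 * tv i q l h2 := by
  unfold tv
  rw [← Pi.mulSingle_mul, ← Pi.mulSingle_mul, ← Pi.mulSingle_mul]
  congr 1
  apply Units.ext
  change Matrix.transvection j l 1 * Matrix.transvection q l 1 * Matrix.transvection j q 1 =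
    Matrix.transvection j q 1 * Matrix.transvection q l 1
  unfold Matrix.transvection
  simp only [add_mul, mul_add, one_mul, mul_one, Matrix.single_mul_single_of_ne _ _ _ _ h2.symm,
    Matrix.single_mul_single_of_ne _ _ _ _ h.symm, Matrix.single_mul_single_same,
    Matrix.single_mul_single_of_ne _ _ _ _ h1.symm, add_zero, zero_add, zero_mul, mul_zero]
  abel

private theorem zer_tv (f : L m → T m) (hf : ∀ g h, f (g * h) = f g + act g (f h))
    (h0 : f (DD φ fun _ _ => false) = 0) (i : ι) (j l : Fin (m i)) (h : j ≠ l)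
    (h' : (φ i j).1 ≠ (φ i l).1) : f (tv i j l h) = 0 := by
  have hz : ∀ ε, f (DD φ ε) = 0 := fun ε =>
    zer_comm f hf (DD φ fun _ _ => false) (DD φ ε) (DD_sq φ _) h0 (DD_comm φ _ _)
  have hE : ∀ (x : Matrix (Fin 2) (Fin 2) (ZMod 2)) (ε : ∀ i, Fin (e i) → Bool),
      wd (ε i (φ i j).1) * x = x * wd (ε i (φ i l).1) →
      EE φ i (φ i j).1 (φ i l).1 h' x ∈ zer f hf := by
    intro x ε hx
    exact zer_comm f hf (DD φ ε) _ (DD_sq φ _) (hz ε) (EE_comm φ i _ _ h' x ε hx)
  obtain ⟨y, z, hx, hy, hz'⟩ := wd_split (Matrix.single (φ i j).2 (φ i l).2 1)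
  rw [EE_tv φ i j l h h', hx, EE_add]
  apply (zer f hf).mul_mem
  · exact hE y (fun _ _ => false) hy
  · apply hE z (Function.update (fun _ _ => false) i fun r => decide (r = (φ i l).1))
    rw [Function.update_self]
    simp only [h', decide_true, decide_false]
    exact hz'

private theorem h1_aux (h4 : ∀ i, 2 ≤ e i) (f : L m → T m)
    (hf : ∀ g h, f (g * h) = f g + act g (f h))
    (h0 : f (DD φ fun _ _ => false) = 0) (g : L m) : f g = 0 := by
  have hg : g ∈ Subgroup.closure
      {g : L m | ∃ (i : ι) (j l : Fin (m i)) (h : j ≠ l), g = tv i j l h} := by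
    rw [closure_tv]
    exact Subgroup.mem_top g
  have hle : Subgroup.closure
      {g : L m | ∃ (i : ι) (j l : Fin (m i)) (h : j ≠ l), g = tv i j l h} ≤ zer f hf := by
    rw [Subgroup.closure_le]
    rintro _ ⟨i, j, l, h, rfl⟩
    by_cases h' : (φ i j).1 = (φ i l).1
    · obtain ⟨r, hr⟩ : ∃ r : Fin (e i), r ≠ (φ i j).1 := by
        have : Nontrivial (Fin (e i)) := Fin.nontrivial_iff_two_le.2 (h4 i)
        exact exists_ne _
      obtain ⟨q, hq⟩ : ∃ q, q = (φ i).symm (r, 0) := ⟨_, rfl⟩
      have hq1 : (φ i q).1 = r := by rw [hq, Equiv.apply_symm_apply]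
      have h1' : (φ i j).1 ≠ (φ i q).1 := by rw [hq1]; exact hr.symm
      have h2' : (φ i q).1 ≠ (φ i l).1 := by rw [hq1, ← h']; exact hr
      have h1 : j ≠ q := fun h => h1' (by rw [h])
      have h2 : q ≠ l := fun h => h2' (by rw [h])
      have ha : tv i j q h1 ∈ zer f hf := zer_tv φ f hf h0 i j q h1 h1'
      have hb : tv i q l h2 ∈ zer f hf := zer_tv φ f hf h0 i q l h2 h2'
      have hc := tv_same i j l q h h1 h2
      have hd : tv i j l h = tv i j q h1 * tv i q l h2 * (tv i j q h1)⁻¹ * (tv i q l h2)⁻¹ := by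
        rw [← hc]
        group
      change tv i j l h ∈ zer f hf
      rw [hd]
      exact (zer f hf).mul_mem ((zer f hf).mul_mem ((zer f hf).mul_mem ha hb)
        ((zer f hf).inv_mem ha)) ((zer f hf).inv_mem hb)
    · exact zer_tv φ f hf h0 i j l h h'
  exact hle hg

theorem h1 (he : ∀ i, Even (m i)) (h4 : ∀ i, 4 ≤ m i) (f : L m → T m)
    (hf : ∀ g h, f (g * h) = f g + act g (f h)) : ∃ v : T m, ∀ g, f g = v - act g v := by
  have hm : ∀ i, m i = (m i / 2) * 2 := fun i => (Nat.div_two_mul_two_of_even (he i)).symm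
  let φ : ∀ i, Fin (m i) ≃ Fin (m i / 2) × Fin 2 := fun i =>
    (finCongr (hm i)).trans finProdFinEquiv.symm
  obtain ⟨v, hv⟩ := act_surj (DD φ fun _ _ => false) (DD_sq φ _) (f (DD φ fun _ _ => false))
  refine ⟨v, fun g => ?_⟩
  have h := h1_aux φ (fun i => by have := h4 i; omega) (fun g => f g - (v - act g v)) (by
    intro g h
    simp only [hf, act_mul, act_sub]
    abel) (by
    rw [← hv, sub_self]) g
  exact sub_eq_zero.1 h

end QB46
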