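import Pool.Agent.Helper46.QB.NormT
import Pool.Agent.Helper46.QB.GamL
import Pool.Agent.Helper46.QB.H1

/-!
QB-05. `T : L` is complete.

Proof. `θ (tr v) = tr (γ v)` (`alpha_tr`, also for `θ⁻¹`), `γ : T ≃+ T` (`tr_add`). `δ g := (θ (lin g)).g`. `lin g * tr v * (lin g)⁻¹ = tr (act g v)`
gives `γ (act g v) = act (δ g) (γ v)` (conjugation of `tr (γ v)` by `θ (lin g)`, whose translation part does not matter). `δ` is onto: for
`h : L` write `θ⁻¹ (lin h) = tr u * lin g`, then `lin h = tr (γ u) * θ (lin g)`, so `δ g = h`. By `gamma_mem` `γ v = act l v`. Put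
`θ' = conj (lin l)⁻¹ * θ`: `θ' (tr v) = tr v`, so `act g v = act (δ' g) v` for all `v` and `δ' = id` (`act_injective`). So
`θ' (lin g) = tr (f g) * lin g` and `f (g h) = f g + act g (f h)`. By `h1` `f g = v - act g v`, and `conj (tr v)` maps `lin g` to
`tr (v - act g v) * lin g` and fixes all `tr w`. So `θ' = conj (tr v)` (`tr_mul_lin`) and `θ = conj (lin l * tr v)`.
-/

set_option autoImplicit false

namespace QB46

variable {ι : Type} [DecidableEq ι] [Finite ι] {m : ι → ℕ}

omit [DecidableEq ι] [Finite ι] in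
private theorem eq_tr {a : AG m} (h : a.g = 1) : a = tr a.v := AG.ext rfl h

omit [DecidableEq ι] [Finite ι] in
private theorem conj_tr (a : AG m) (v : T m) : a * tr v * a⁻¹ = tr (act a.g v) := by
  apply AG.ext
  · simp only [mul_v, mul_g, tr_v, tr_g, inv_v, mul_one, act_neg, ← act_mul, mul_inv_cancel,
      act_one]
    abel
  · simp

theorem complete (he : ∀ i, Even (m i)) (h4 : ∀ i, 4 ≤ m i) (hm : Function.Injective m)
    (θ : MulAut (AG m)) : ∃ c : AG m, θ = MulAut.conj c := by
  have h2 : ∀ i, 2 ≤ m i := fun i => by have := h4 i; omega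
  have hθ : ∀ v, θ (tr v) = tr (θ (tr v)).v := fun v => eq_tr (alpha_tr h2 θ v)
  have hθ' : ∀ v, θ.symm (tr v) = tr (θ.symm (tr v)).v := fun v => eq_tr (alpha_tr h2 θ⁻¹ v)
  let γ : T m ≃+ T m :=
    { toFun := fun v => (θ (tr v)).v
      invFun := fun v => (θ.symm (tr v)).v
      left_inv := fun v => by
        change (θ.symm (tr (θ (tr v)).v)).v = v
        rw [← hθ, MulEquiv.symm_apply_apply, tr_v]
      right_inv := fun v => by
        change (θ (tr (θ.symm (tr v)).v)).v = v
        rw [← hθ', MulEquiv.apply_symm_apply, tr_v]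
      map_add' := fun v w => by
        change (θ (tr (v + w))).v = (θ (tr v)).v + (θ (tr w)).v
        rw [tr_add, map_mul, mul_v, alpha_tr h2, act_one] }
  have hγ : ∀ v, θ (tr v) = tr (γ v) := hθ
  let δ : L m → L m := fun g => (θ (lin g)).g
  have hδγ : ∀ (g : L m) (v : T m), γ (act g v) = act (δ g) (γ v) := by
    intro g v
    have h1 : θ (tr (act g v)) = θ (lin g) * tr (γ v) * (θ (lin g))⁻¹ := by
      rw [← lin_conj, map_mul, map_mul, map_inv, hγ]
    rw [hγ, conj_tr] at h1
    exact congrArg AG.v h1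
  have hδ : Function.Surjective δ := by
    intro h
    refine ⟨(θ.symm (lin h)).g, ?_⟩
    have h1 : θ (tr (θ.symm (lin h)).v * lin (θ.symm (lin h)).g) = lin h := by
      rw [tr_mul_lin, MulEquiv.apply_symm_apply]
    rw [map_mul, hγ] at h1
    have h2 := congrArg AG.g h1
    rw [mul_g, tr_g, one_mul, lin_g] at h2
    exact h2
  obtain ⟨l, hl⟩ := gamma_mem h2 hm γ δ hδ hδγ
  -- the corrected automorphism
  have hco : ∀ g, δ g = l * g * l⁻¹ := by
    intro g
    apply act_injective
    intro v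
    have h1 := hδγ g (act l⁻¹ v)
    rw [hl, hl, ← act_mul, ← act_mul, ← act_mul l l⁻¹ v, mul_inv_cancel, act_one] at h1
    rw [← h1, mul_assoc]
  let f : L m → T m := fun g => act l⁻¹ (θ (lin g)).v
  have hf : ∀ g h, f (g * h) = f g + act g (f h) := by
    intro g h
    change act l⁻¹ (θ (lin (g * h))).v = act l⁻¹ (θ (lin g)).v + act g (act l⁻¹ (θ (lin h)).v)
    rw [map_mul, map_mul, mul_v, act_add]
    congr 1
    have h1 : (θ (lin g)).g = l * g * l⁻¹ := hco g
    rw [h1, ← act_mul, ← act_mul]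
    congr 1
    group
  obtain ⟨v, hv⟩ := h1 he h4 f hf
  refine ⟨lin l * tr v, ?_⟩
  apply MulEquiv.ext
  intro a
  rw [MulAut.conj_apply]
  have hc : ∀ g, (θ (lin g)).v = act l (v - act g v) := by
    intro g
    rw [← hv g, ← act_mul, mul_inv_cancel, act_one]
  conv_lhs => rw [← tr_mul_lin a, map_mul, hγ, hl]
  apply AG.ext
  · rw [mul_v, tr_v, tr_g, act_one, hc, ← act_add]
    simp only [mul_v, mul_g, lin_v, lin_g, tr_v, tr_g, inv_v, mul_inv_rev, inv_g, act_neg, mul_one,
      zero_add, act_add, act_sub, ← act_mul, inv_one, one_mul]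
    have e1 : l * a.g * l⁻¹ * l = l * a.g := by group
    have e2 : l * a.g * (l⁻¹ * l) = l * a.g := by group
    simp only [e1, e2, neg_zero, act_zero]
    abel
  · have h1 : (θ (lin a.g)).g = l * a.g * l⁻¹ := hco a.g
    rw [mul_g, tr_g, one_mul, h1]
    simp

end QB46
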