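import Mathlib

/-!
# Base block of the quine for `S00834` (MP_19fde8_al): definitions

`AG m` is the group `T : L`, `T = ⨁_i k^{m_i}`, `L = ∏_i GL_{m_i}(k)`, `k = F₂` (a product of affine groups).
`YY BB N s m` is the `AG m`-module `Y = Y_c ⊕ ⨁_i Y_i ⊗ k^{m_i}`, `Y_c = BB^N ⊕ BB^N`, `Y_i = BB^N` (five maps `π_i : Y_c → Y_i`),
whose endomorphisms are the right multiplications by the elements of the finite ring `BB`.
-/

set_option autoImplicit false
set_option linter.unusedSectionVars false

namespace QB46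

section Group
variable {ι : Type} (m : ι → ℕ)

/-- The translations `T = ⨁_i k^{m_i}`. -/
abbrev T : Type := ∀ i : ι, Fin (m i) → ZMod 2

/-- `L = ∏_i GL_{m_i}(k)`. -/
abbrev L : Type := ∀ i : ι, GL (Fin (m i)) (ZMod 2)

variable {m}

/-- The action of `L` on `T`. -/
def act (g : L m) (v : T m) : T m := fun i => (g i : Matrix (Fin (m i)) (Fin (m i)) (ZMod 2)).mulVec (v i)

@[simp] theorem act_one (v : T m) : act 1 v = v := by
  funext i
  simp [act]

theorem act_mul (g h : L m) (v : T m) : act (g * h) v = act g (act h v) := by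
  funext i
  simp [act, Matrix.mulVec_mulVec]

theorem act_add (g : L m) (v w : T m) : act g (v + w) = act g v + act g w := by
  funext i
  simp [act, Matrix.mulVec_add]

@[simp] theorem act_zero (g : L m) : act g (0 : T m) = 0 := by
  funext i
  simp [act]

theorem act_neg (g : L m) (v : T m) : act g (-v) = -act g v := by
  funext i
  simp [act, Matrix.mulVec_neg]

theorem act_sub (g : L m) (v w : T m) : act g (v - w) = act g v - act g w := by
  rw [sub_eq_add_neg, act_add, act_neg, ← sub_eq_add_neg]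

variable (m) in
/-- The group `T : L`, with `(v, g) (v', g') = (v + g v', g g')`. -/
@[ext] structure AG : Type where
  v : T m
  g : L m

instance : Group (AG m) where
  mul a b := ⟨a.v + act a.g b.v, a.g * b.g⟩
  one := ⟨0, 1⟩
  inv a := ⟨-act a.g⁻¹ a.v, a.g⁻¹⟩
  mul_assoc a b c := by
    apply AG.ext
    · change a.v + act a.g b.v + act (a.g * b.g) c.v = a.v + act a.g (b.v + act b.g c.v)
      rw [act_add, act_mul, add_assoc]
    · exact mul_assoc a.g b.g c.g
  one_mul a := by
    apply AG.ext
    · change 0 + act 1 a.v = a.v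
      rw [act_one, zero_add]
    · exact one_mul a.g
  mul_one a := by
    apply AG.ext
    · change a.v + act a.g 0 = a.v
      rw [act_zero, add_zero]
    · exact mul_one a.g
  inv_mul_cancel a := by
    apply AG.ext
    · change -act a.g⁻¹ a.v + act a.g⁻¹ a.v = 0
      rw [neg_add_cancel]
    · exact inv_mul_cancel a.g

@[simp] theorem mul_v (a b : AG m) : (a * b).v = a.v + act a.g b.v := rfl
@[simp] theorem mul_g (a b : AG m) : (a * b).g = a.g * b.g := rfl
@[simp] theorem one_v : (1 : AG m).v = 0 := rfl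
@[simp] theorem one_g : (1 : AG m).g = 1 := rfl
@[simp] theorem inv_v (a : AG m) : (a⁻¹).v = -act a.g⁻¹ a.v := rfl
@[simp] theorem inv_g (a : AG m) : (a⁻¹).g = a.g⁻¹ := rfl

/-- The translation by `v`. -/
def tr (v : T m) : AG m := ⟨v, 1⟩

/-- The embedding of `L`. -/
def lin : L m →* AG m where
  toFun g := ⟨0, g⟩
  map_one' := rfl
  map_mul' g h := by
    apply AG.ext
    · change (0 : T m) = 0 + act g 0
      rw [act_zero, add_zero]
    · rfl

/-- The projection onto `L`. -/
def prL : AG m →* L m where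
  toFun a := a.g
  map_one' := rfl
  map_mul' _ _ := rfl

@[simp] theorem tr_v (v : T m) : (tr v).v = v := rfl
@[simp] theorem tr_g (v : T m) : (tr v).g = 1 := rfl
@[simp] theorem lin_v (g : L m) : (lin g).v = 0 := rfl
@[simp] theorem lin_g (g : L m) : (lin g).g = g := rfl
@[simp] theorem prL_apply (a : AG m) : prL a = a.g := rfl

theorem tr_mul_lin (a : AG m) : tr a.v * lin a.g = a := by
  apply AG.ext
  · simp
  · simp

theorem tr_add (v w : T m) : tr (v + w) = tr v * tr w := by
  apply AG.ext <;> simp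

@[simp] theorem tr_zero : tr (0 : T m) = 1 := rfl

theorem lin_conj (g : L m) (v : T m) : lin g * tr v * (lin g)⁻¹ = tr (act g v) := by
  apply AG.ext
  · simp
  · simp

variable [DecidableEq ι]

/-- The transvection `1 + E_{jl}` in the `i`-th factor of `L`. -/
def tv (i : ι) (j l : Fin (m i)) (h : j ≠ l) : L m :=
  Pi.mulSingle i (Matrix.GeneralLinearGroup.mkOfDetNeZero (Matrix.transvection j l (1 : ZMod 2))
    (by rw [Matrix.det_transvection_of_ne _ _ h]; exact one_ne_zero))

/-- The vector `e_j` in the `i`-th summand of `T`. -/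
def ev (i : ι) (j : Fin (m i)) : T m := Pi.single i (Pi.single j 1)

end Group

section Decoder
variable (BB : Type) [Ring BB] (n : ℕ)

/-- The lower shift. -/
def opA : (Fin (n + 1) → BB) →+ (Fin (n + 1) → BB) where
  toFun x i := if h : (i : ℕ) = 0 then 0 else x ⟨(i : ℕ) - 1, by omega⟩
  map_zero' := by funext i; simp
  map_add' x y := by
    funext i
    by_cases h : (i : ℕ) = 0
    · simp only [dif_pos h, Pi.add_apply, add_zero]
    · simp only [dif_neg h, Pi.add_apply]

variable {BB n}

/-- The upper shift plus the diagonal matrix with the entries `s i` (left multiplications). -/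
def opB (s : Fin (n + 1) → BB) : (Fin (n + 1) → BB) →+ (Fin (n + 1) → BB) where
  toFun x i := (if h : (i : ℕ) + 1 < n + 1 then x ⟨(i : ℕ) + 1, h⟩ else 0) + s i * x i
  map_zero' := by funext i; simp
  map_add' x y := by
    funext i
    by_cases h : (i : ℕ) + 1 < n + 1
    · simp only [h, dif_pos, Pi.add_apply, mul_add]
      abel
    · simp only [h, dif_neg, not_false_iff, Pi.add_apply, mul_add]
      abel

end Decoder

section Module
variable {BB : Type} [Ring BB] {n : ℕ}

/-- The five maps `Y_c → Y_i`. -/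
def pp (s : Fin (n + 1) → BB) (i : Fin 5) :
    ((Fin (n + 1) → BB) × (Fin (n + 1) → BB)) →+ (Fin (n + 1) → BB) :=
  if i = 0 then AddMonoidHom.fst _ _
  else if i = 1 then AddMonoidHom.snd _ _
  else if i = 2 then AddMonoidHom.fst _ _ + AddMonoidHom.snd _ _
  else if i = 3 then (opA BB n).comp (AddMonoidHom.fst _ _) + AddMonoidHom.snd _ _
  else (opB s).comp (AddMonoidHom.fst _ _) + AddMonoidHom.snd _ _

variable [Algebra (ZMod 2) BB]

/-- The module `Y = Y_c ⊕ ⨁_i Y_i ⊗ k^{m_i}`. -/
def YY (_s : Fin (n + 1) → BB) (m : Fin 5 → ℕ) : Type :=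
  ((Fin (n + 1) → BB) × (Fin (n + 1) → BB)) × (∀ i : Fin 5, Fin (m i) → (Fin (n + 1) → BB))

variable (s : Fin (n + 1) → BB) (m : Fin 5 → ℕ)

instance : AddCommGroup (YY s m) :=
  inferInstanceAs (AddCommGroup (((Fin (n + 1) → BB) × (Fin (n + 1) → BB)) ×
    (∀ i : Fin 5, Fin (m i) → (Fin (n + 1) → BB))))

instance : Module BBᵐᵒᵖ (YY s m) :=
  inferInstanceAs (Module BBᵐᵒᵖ (((Fin (n + 1) → BB) × (Fin (n + 1) → BB)) ×
    (∀ i : Fin 5, Fin (m i) → (Fin (n + 1) → BB))))

instance : Module (ZMod 2) (YY s m) :=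
  inferInstanceAs (Module (ZMod 2) (((Fin (n + 1) → BB) × (Fin (n + 1) → BB)) ×
    (∀ i : Fin 5, Fin (m i) → (Fin (n + 1) → BB))))

instance [Finite BB] : Finite (YY s m) :=
  inferInstanceAs (Finite (((Fin (n + 1) → BB) × (Fin (n + 1) → BB)) ×
    (∀ i : Fin 5, Fin (m i) → (Fin (n + 1) → BB))))

variable {s m}

/-- The action of `(v, g)`: `(x, y) ↦ (x, g y + π(x) ⊗ v)`. -/
instance : SMul (AG m) (YY s m) where
  smul a y := (y.1, fun i j => ∑ l : Fin (m i),
    (a.g i : Matrix (Fin (m i)) (Fin (m i)) (ZMod 2)) j l • y.2 i l + a.v i j • pp s i y.1)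

theorem smul_fst (a : AG m) (y : YY s m) : (a • y).1 = y.1 := rfl

theorem smul_snd (a : AG m) (y : YY s m) (i : Fin 5) (j : Fin (m i)) :
    (a • y).2 i j = ∑ l : Fin (m i),
      (a.g i : Matrix (Fin (m i)) (Fin (m i)) (ZMod 2)) j l • y.2 i l + a.v i j • pp s i y.1 := rfl

@[ext] theorem YY.ext {x y : YY s m} (h1 : x.1 = y.1) (h2 : ∀ i j, x.2 i j = y.2 i j) : x = y :=
  Prod.ext h1 (funext fun i => funext fun j => h2 i j)

theorem add_fst (x y : YY s m) : (x + y).1 = x.1 + y.1 := rfl
theorem add_snd (x y : YY s m) (i : Fin 5) (j : Fin (m i)) :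
    (x + y).2 i j = x.2 i j + y.2 i j := rfl
theorem zero_fst : (0 : YY s m).1 = 0 := rfl
theorem zero_snd (i : Fin 5) (j : Fin (m i)) : (0 : YY s m).2 i j = 0 := rfl

instance : DistribMulAction (AG m) (YY s m) where
  one_smul y := by
    apply YY.ext
    · rfl
    · intro i j
      rw [smul_snd]
      simp [Matrix.one_apply]
  mul_smul a b y := by
    apply YY.ext
    · rfl
    · intro i j
      rw [smul_snd, smul_snd, smul_fst]
      simp only [smul_snd, mul_g, mul_v, Pi.mul_apply, Matrix.GeneralLinearGroup.coe_mul,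
        Matrix.mul_apply, Pi.add_apply, act, Matrix.mulVec, dotProduct, smul_add, add_smul,
        Finset.sum_add_distrib, Finset.smul_sum, Finset.sum_smul, mul_smul]
      rw [Finset.sum_comm]
      abel
  smul_zero a := by
    apply YY.ext
    · rfl
    · intro i j
      rw [smul_snd]
      simp [zero_fst, zero_snd]
  smul_add a x y := by
    apply YY.ext
    · rfl
    · intro i j
      rw [smul_snd, add_snd, smul_snd, smul_snd, add_fst, map_add]
      simp only [add_snd, smul_add, Finset.sum_add_distrib]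
      abel

omit [Algebra (ZMod 2) BB] in
theorem opA_op (b : BB) (x : Fin (n + 1) → BB) :
    opA BB n (MulOpposite.op b • x) = MulOpposite.op b • opA BB n x := by
  funext i
  by_cases h : (i : ℕ) = 0
  · simp [opA, h]
  · simp [opA, h]

omit [Algebra (ZMod 2) BB] in
theorem opB_op (b : BB) (x : Fin (n + 1) → BB) :
    opB s (MulOpposite.op b • x) = MulOpposite.op b • opB s x := by
  funext i
  by_cases h : (i : ℕ) + 1 < n + 1
  · simp [opB, h, add_mul, mul_assoc]
  · simp [opB, h, mul_assoc]

omit [Algebra (ZMod 2) BB] in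
theorem pp_op (i : Fin 5) (b : BB) (x : (Fin (n + 1) → BB) × (Fin (n + 1) → BB)) :
    pp s i (MulOpposite.op b • x) = MulOpposite.op b • pp s i x := by
  unfold pp
  split_ifs
  · rfl
  · rfl
  · simp only [AddMonoidHom.add_apply, AddMonoidHom.coe_fst, AddMonoidHom.coe_snd, Prod.smul_fst,
      Prod.smul_snd, smul_add]
  · simp only [AddMonoidHom.add_apply, AddMonoidHom.coe_comp, Function.comp_apply,
      AddMonoidHom.coe_fst, AddMonoidHom.coe_snd, Prod.smul_fst, Prod.smul_snd, smul_add, opA_op]
  · simp only [AddMonoidHom.add_apply, AddMonoidHom.coe_comp, Function.comp_apply,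
      AddMonoidHom.coe_fst, AddMonoidHom.coe_snd, Prod.smul_fst, Prod.smul_snd, smul_add, opB_op]

instance : SMulCommClass (AG m) BBᵐᵒᵖ (YY s m) where
  smul_comm a b y := by
    obtain ⟨b, rfl⟩ := MulOpposite.op_surjective b
    apply YY.ext
    · rfl
    · intro i j
      change ∑ l : Fin (m i), (a.g i : Matrix (Fin (m i)) (Fin (m i)) (ZMod 2)) j l •
        (MulOpposite.op b • y.2 i l) + a.v i j • pp s i (MulOpposite.op b • y.1) =
        MulOpposite.op b • (∑ l : Fin (m i),
          (a.g i : Matrix (Fin (m i)) (Fin (m i)) (ZMod 2)) j l • y.2 i l + a.v i j • pp s i y.1)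
      rw [pp_op, smul_add, Finset.smul_sum, smul_comm (a.v i j)]
      simp only [smul_comm _ (MulOpposite.op b)]

end Module

end QB46
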