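import Pool.Agent.Helper46.QB.Transv

/-!
QB-09. Additive endomorphisms of `Y` which commute with `AG m` (first part).

Notation: `inY i j u : YY s m` = the element with `.2 i j = u` and all other components `0`; `inC x` = the element with `.1 = x`, `.2 = 0`.
Proof. (1) `lin (tv i j l h) • y = y + inY i j (y.2 i l)` (`smul_snd`, entries of the transvection). So
`f (inY i j (y.2 i l)) = f (lin (tv i j l h) • y) - f y = lin (tv i j l h) • f y - f y = inY i j ((f y).2 i l)`.
With `y = inY i l u`: `f (inY i j u) = inY i j ((f (inY i l u)).2 i l)` for all `j ≠ l`. So `f (inY i j u)` lies in the slot `(i, j)` for every `j`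
(`m i ≥ 2`), with value `φ_j u := (f (inY i j u)).2 i j`, and `φ_j u = φ_l u` for `j ≠ l`. `φ_i := φ_j` for any `j`.
(2) `y = inC x`: `y.2 i l = 0`, so `inY i j ((f y).2 i l) = f 0 = 0`: `(f (inC x)).2 i l = 0` for all `i`, `l`. So
`f (inC x) = inC (g x)`, `g x := (f (inC x)).1`.
(3) `tr (ev i j) • inC x = inC x + inY i j (pp s i x)`; apply `f`: `inY i j (pp s i (g x)) = inY i j (φ_i (pp s i x))`.
(4) `y = inC y.1 + ∑ i, ∑ j, inY i j (y.2 i j)`; apply `f`.
-/

set_option autoImplicit false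
set_option linter.unusedSectionVars false

namespace QB46

variable {BB : Type} [Ring BB] [Algebra (ZMod 2) BB] {n : ℕ} {s : Fin (n + 1) → BB} {m : Fin 5 → ℕ}

/-- the slot `(i, j)` -/
private def inY (s : Fin (n + 1) → BB) (m : Fin 5 → ℕ) (i : Fin 5) (j : Fin (m i)) :
    (Fin (n + 1) → BB) →+ YY s m :=
  (AddMonoidHom.inr ((Fin (n + 1) → BB) × (Fin (n + 1) → BB))
    (∀ i : Fin 5, Fin (m i) → (Fin (n + 1) → BB))).comp
    ((AddMonoidHom.single (fun i : Fin 5 => Fin (m i) → (Fin (n + 1) → BB)) i).comp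
      (AddMonoidHom.single (fun _ : Fin (m i) => (Fin (n + 1) → BB)) j))

/-- the component `Y_c` -/
private def inC (s : Fin (n + 1) → BB) (m : Fin 5 → ℕ) :
    ((Fin (n + 1) → BB) × (Fin (n + 1) → BB)) →+ YY s m :=
  AddMonoidHom.inl ((Fin (n + 1) → BB) × (Fin (n + 1) → BB))
    (∀ i : Fin 5, Fin (m i) → (Fin (n + 1) → BB))

private theorem inY_fst (i : Fin 5) (j : Fin (m i)) (u : Fin (n + 1) → BB) :
    (inY s m i j u).1 = 0 := rfl

private theorem inY_snd (i : Fin 5) (j : Fin (m i)) (u : Fin (n + 1) → BB) :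
    (inY s m i j u).2 = Pi.single i (Pi.single j u) := rfl

private theorem inY_same (i : Fin 5) (j : Fin (m i)) (u : Fin (n + 1) → BB) :
    (inY s m i j u).2 i j = u := by
  rw [inY_snd, Pi.single_eq_same, Pi.single_eq_same]

private theorem inC_fst (x : (Fin (n + 1) → BB) × (Fin (n + 1) → BB)) :
    (inC s m x).1 = x := rfl

private theorem inC_snd (x : (Fin (n + 1) → BB) × (Fin (n + 1) → BB)) (i : Fin 5)
    (j : Fin (m i)) : (inC s m x).2 i j = 0 := rfl

private theorem inY_inj {i : Fin 5} {j : Fin (m i)} {u w : Fin (n + 1) → BB}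
    (h : inY s m i j u = inY s m i j w) : u = w := by
  have h1 : (inY s m i j u).2 i j = (inY s m i j w).2 i j := by rw [h]
  rwa [inY_same, inY_same] at h1

private theorem tv_same (i : Fin 5) (j l : Fin (m i)) (h : j ≠ l) (a b : Fin (m i)) :
    ((tv i j l h : L m) i : Matrix (Fin (m i)) (Fin (m i)) (ZMod 2)) a b =
      (if a = b then 1 else 0) + if j = a ∧ l = b then 1 else 0 := by
  unfold tv
  rw [Pi.mulSingle_eq_same]
  show Matrix.transvection j l (1 : ZMod 2) a b = _
  rw [Matrix.transvection, Matrix.add_apply, Matrix.one_apply, Matrix.single_apply]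

private theorem tv_ne (i : Fin 5) (j l : Fin (m i)) (h : j ≠ l) {i' : Fin 5} (hi : i' ≠ i) :
    (tv i j l h : L m) i' = 1 := by
  unfold tv
  rw [Pi.mulSingle_eq_of_ne hi]

private theorem tv_smul (i : Fin 5) (j l : Fin (m i)) (h : j ≠ l) (y : YY s m) :
    (lin (tv i j l h) : AG m) • y = y + inY s m i j (y.2 i l) := by
  apply YY.ext
  · rw [smul_fst, add_fst, inY_fst, add_zero]
  · intro i' j'
    rw [smul_snd, add_snd, lin_g, lin_v, Pi.zero_apply, Pi.zero_apply, zero_smul, add_zero, inY_snd]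
    rcases eq_or_ne i' i with rfl | hi
    · rw [Pi.single_eq_same]
      simp only [tv_same, add_smul, Finset.sum_add_distrib, ite_smul, one_smul, zero_smul]
      rw [Finset.sum_ite_eq, if_pos (Finset.mem_univ _)]
      congr 1
      by_cases hj : j = j'
      · subst hj
        rw [Pi.single_eq_same]
        simp
      · rw [Pi.single_eq_of_ne (Ne.symm hj)]
        refine Finset.sum_eq_zero fun t _ => ?_
        rw [if_neg (fun h => hj h.1)]
    · rw [tv_ne i j l h hi, Pi.single_eq_of_ne hi, Pi.zero_apply, add_zero,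
        Matrix.GeneralLinearGroup.coe_one]
      simp only [Matrix.one_apply, ite_smul, one_smul, zero_smul]
      rw [Finset.sum_ite_eq, if_pos (Finset.mem_univ _)]

private theorem tr_smul (i : Fin 5) (j : Fin (m i))
    (x : (Fin (n + 1) → BB) × (Fin (n + 1) → BB)) :
    (tr (ev i j) : AG m) • inC s m x = inC s m x + inY s m i j (pp s i x) := by
  apply YY.ext
  · rw [smul_fst, add_fst, inY_fst, add_zero]
  · intro i' j'
    rw [smul_snd, add_snd, inC_snd, inC_fst, inY_snd, zero_add, tr_v]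
    have h1 : ∑ l : Fin (m i'), ((tr (ev i j) : AG m).g i' :
        Matrix (Fin (m i')) (Fin (m i')) (ZMod 2)) j' l • (inC s m x).2 i' l = 0 :=
      Finset.sum_eq_zero fun l _ => by rw [inC_snd, smul_zero]
    rw [h1, zero_add]
    unfold ev
    rcases eq_or_ne i' i with rfl | hi
    · rw [Pi.single_eq_same, Pi.single_eq_same]
      by_cases hj : j' = j
      · subst hj
        rw [Pi.single_eq_same, Pi.single_eq_same, one_smul]
      · rw [Pi.single_eq_of_ne hj, Pi.single_eq_of_ne hj, zero_smul]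
    · rw [Pi.single_eq_of_ne hi, Pi.single_eq_of_ne hi, Pi.zero_apply, Pi.zero_apply, zero_smul]

private theorem exists_other (h2 : ∀ i, 2 ≤ m i) (i : Fin 5) (l : Fin (m i)) :
    ∃ j : Fin (m i), j ≠ l := by
  have : Nontrivial (Fin (m i)) := Fin.nontrivial_iff_two_le.2 (h2 i)
  exact exists_ne l

private theorem decomp (y : YY s m) (hy : y.1 = 0) :
    y = ∑ i : Fin 5, ∑ j : Fin (m i), inY s m i j (y.2 i j) := by
  have h1 : y = AddMonoidHom.inr ((Fin (n + 1) → BB) × (Fin (n + 1) → BB))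
    (∀ i : Fin 5, Fin (m i) → (Fin (n + 1) → BB)) y.2 := by
    apply YY.ext
    · exact hy
    · intro i j
      rfl
  have h2 : y.2 = ∑ i : Fin 5, (Pi.single i (∑ j : Fin (m i), Pi.single j (y.2 i j)) :
      ∀ i : Fin 5, Fin (m i) → (Fin (n + 1) → BB)) := by
    have h3 := (Finset.univ_sum_single y.2).symm
    conv_lhs => rw [h3]
    refine Finset.sum_congr rfl fun i _ => ?_
    rw [Finset.univ_sum_single]
  conv_lhs => rw [h1, h2, map_sum]
  refine Finset.sum_congr rfl fun i _ => ?_
  have h4 : (Pi.single i (∑ j : Fin (m i), Pi.single j (y.2 i j)) :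
      ∀ i : Fin 5, Fin (m i) → (Fin (n + 1) → BB)) =
      ∑ j : Fin (m i), Pi.single i (Pi.single j (y.2 i j)) :=
    map_sum (AddMonoidHom.single (fun i : Fin 5 => Fin (m i) → (Fin (n + 1) → BB)) i) _ _
  rw [h4, map_sum]
  rfl

theorem end_shape (h2 : ∀ i, 2 ≤ m i) (f : YY s m →+ YY s m)
    (hf : ∀ (a : AG m) (y : YY s m), f (a • y) = a • f y) :
    ∃ (g : ((Fin (n + 1) → BB) × (Fin (n + 1) → BB)) →+ ((Fin (n + 1) → BB) × (Fin (n + 1) → BB)))
      (φ : Fin 5 → ((Fin (n + 1) → BB) →+ (Fin (n + 1) → BB))),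
      (∀ i x, φ i (pp s i x) = pp s i (g x)) ∧
      ∀ y : YY s m, (f y).1 = g y.1 ∧ ∀ i j, (f y).2 i j = φ i (y.2 i j) := by
  have key : ∀ (i : Fin 5) (j l : Fin (m i)), j ≠ l → ∀ y : YY s m,
      f (inY s m i j (y.2 i l)) = inY s m i j ((f y).2 i l) := by
    intro i j l h y
    have h1 := hf (lin (tv i j l h)) y
    rw [tv_smul, tv_smul, map_add] at h1
    exact add_left_cancel h1
  have hz : ∀ i, 0 < m i := fun i => by have := h2 i; omega
  let fst' : YY s m →+ ((Fin (n + 1) → BB) × (Fin (n + 1) → BB)) :=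
    AddMonoidHom.fst ((Fin (n + 1) → BB) × (Fin (n + 1) → BB))
      (∀ i : Fin 5, Fin (m i) → (Fin (n + 1) → BB))
  let slot : ∀ i : Fin 5, YY s m →+ (Fin (n + 1) → BB) := fun i =>
    (Pi.evalAddMonoidHom (fun _ : Fin (m i) => (Fin (n + 1) → BB)) ⟨0, hz i⟩).comp
      ((Pi.evalAddMonoidHom (fun i : Fin 5 => Fin (m i) → (Fin (n + 1) → BB)) i).comp
        (AddMonoidHom.snd ((Fin (n + 1) → BB) × (Fin (n + 1) → BB))
          (∀ i : Fin 5, Fin (m i) → (Fin (n + 1) → BB))))
  have hslot : ∀ i y, slot i y = y.2 i ⟨0, hz i⟩ := fun i y => rfl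
  let φ : Fin 5 → ((Fin (n + 1) → BB) →+ (Fin (n + 1) → BB)) := fun i =>
    ((slot i).comp f).comp (inY s m i ⟨0, hz i⟩)
  have hφ : ∀ i u, φ i u = (f (inY s m i ⟨0, hz i⟩ u)).2 i ⟨0, hz i⟩ := fun i u => rfl
  have h3 : ∀ (i : Fin 5) (j : Fin (m i)) u, f (inY s m i j u) = inY s m i j (φ i u) := by
    intro i j u
    by_cases hj : j = ⟨0, hz i⟩
    · subst hj
      obtain ⟨l, hl⟩ := exists_other h2 i ⟨0, hz i⟩
      have h4 := key i ⟨0, hz i⟩ l (Ne.symm hl) (inY s m i l u)
      rw [inY_same] at h4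
      rw [hφ]
      conv_rhs => rw [h4, inY_same]
      exact h4
    · have h4 := key i j ⟨0, hz i⟩ hj (inY s m i ⟨0, hz i⟩ u)
      rw [inY_same] at h4
      exact h4
  have h4 : ∀ (y : YY s m) i l, (f y).2 i l = φ i (y.2 i l) := by
    intro y i l
    obtain ⟨j, hj⟩ := exists_other h2 i l
    have h5 := key i j l hj y
    rw [h3] at h5
    exact (inY_inj h5).symm
  let g : ((Fin (n + 1) → BB) × (Fin (n + 1) → BB)) →+
      ((Fin (n + 1) → BB) × (Fin (n + 1) → BB)) := (fst'.comp f).comp (inC s m)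
  have hg : ∀ x, f (inC s m x) = inC s m (g x) := by
    intro x
    apply YY.ext
    · rfl
    · intro i j
      rw [h4, inC_snd, inC_snd, map_zero]
  have h5 : ∀ y : YY s m, (f y).1 = g y.1 := by
    intro y
    have h6 : y = inC s m y.1 + (y - inC s m y.1) := by abel
    have h7 : (y - inC s m y.1).1 = 0 := by
      have h8 : (y - inC s m y.1).1 = fst' y - fst' (inC s m y.1) := map_sub fst' _ _
      rw [h8]
      exact sub_self _
    have h8 : fst' (f (y - inC s m y.1)) = 0 := by
      rw [decomp _ h7, map_sum, map_sum]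
      refine Finset.sum_eq_zero fun i _ => ?_
      rw [map_sum, map_sum]
      refine Finset.sum_eq_zero fun j _ => ?_
      rw [h3]
      rfl
    have h9 : fst' (f y) = g y.1 := by
      conv_lhs => rw [h6, map_add, map_add, h8, add_zero, hg]
      rfl
    exact h9
  refine ⟨g, φ, fun i x => ?_, fun y => ⟨h5 y, fun i j => h4 y i j⟩⟩
  have h6 := hf (tr (ev i ⟨0, hz i⟩)) (inC s m x)
  rw [tr_smul, map_add, hg, h3, tr_smul] at h6
  exact inY_inj (add_left_cancel h6)

/-- `Y` has no invariants, and `AG m` is faithful on `Y`. -/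
theorem inv_zero (h2 : ∀ i, 2 ≤ m i) {y : YY s m} (hy : ∀ a : AG m, a • y = y) : y = 0 := by
  have h3 : ∀ i l, y.2 i l = 0 := by
    intro i l
    obtain ⟨j, hj⟩ := exists_other h2 i l
    have h4 := hy (lin (tv i j l hj))
    rw [tv_smul, add_eq_left] at h4
    rw [← map_zero (inY s m i j)] at h4
    exact inY_inj h4
  have h4 : y = inC s m y.1 := by
    apply YY.ext
    · rfl
    · intro i j
      rw [h3, inC_snd]
  have h5 : ∀ i, pp s i y.1 = 0 := by
    intro i
    have hz : 0 < m i := by have := h2 i; omega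
    have h6 := hy (tr (ev i ⟨0, hz⟩))
    rw [h4, tr_smul, add_eq_left, ← map_zero (inY s m i ⟨0, hz⟩)] at h6
    exact inY_inj h6
  have h6 : y.1.1 = 0 := h5 0
  have h7 : y.1.2 = 0 := h5 1
  apply YY.ext
  · exact Prod.ext h6 h7
  · intro i j
    exact h3 i j

theorem faithful [Nontrivial BB] (h2 : ∀ i, 2 ≤ m i) {a : AG m} (ha : ∀ y : YY s m, a • y = y) :
    a = 1 := by
  have hu : (1 : Fin (n + 1) → BB) ≠ 0 := by
    intro h
    have := congrFun h 0
    exact one_ne_zero this
  apply AG.ext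
  · funext i j
    rw [one_v, Pi.zero_apply, Pi.zero_apply]
    have hx : ∃ x, pp s i x = 1 := by
      rcases eq_or_ne i 0 with h | h
      · subst h
        exact ⟨(1, 0), rfl⟩
      · refine ⟨(0, 1), ?_⟩
        unfold pp
        rw [if_neg h]
        split_ifs
        · rfl
        · simp
        · simp
        · simp
    obtain ⟨x, hx⟩ := hx
    have h3 : (a • inC s m x).2 i j = (inC s m x).2 i j := by rw [ha]
    rw [smul_snd, inC_snd, inC_fst, hx] at h3
    have h1 : ∑ l : Fin (m i), (a.g i : Matrix (Fin (m i)) (Fin (m i)) (ZMod 2)) j l •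
        (inC s m x).2 i l = 0 :=
      Finset.sum_eq_zero fun l _ => by rw [inC_snd, smul_zero]
    rw [h1, zero_add] at h3
    exact (smul_eq_zero.1 h3).resolve_right hu
  · funext i
    rw [one_g, Pi.one_apply]
    apply Units.ext
    ext j l
    rw [Matrix.GeneralLinearGroup.coe_one, Matrix.one_apply]
    have h3 : (a • inY s m i l 1).2 i j = (inY s m i l 1).2 i j := by rw [ha]
    rw [smul_snd, inY_fst, map_zero, smul_zero, add_zero, inY_snd, Pi.single_eq_same,
      Finset.sum_eq_single l (fun t _ ht => by rw [Pi.single_eq_of_ne ht, smul_zero])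
        (fun hl => absurd (Finset.mem_univ l) hl), Pi.single_eq_same] at h3
    by_cases hjl : j = l
    · subst hjl
      rw [if_pos rfl]
      rw [Pi.single_eq_same] at h3
      have h4 : ((a.g i : Matrix (Fin (m i)) (Fin (m i)) (ZMod 2)) j j - 1) •
          (1 : Fin (n + 1) → BB) = 0 := by
        rw [sub_smul, one_smul, h3, sub_self]
      exact sub_eq_zero.1 ((smul_eq_zero.1 h4).resolve_right hu)
    · rw [if_neg hjl]
      rw [Pi.single_eq_of_ne hjl] at h3
      exact (smul_eq_zero.1 h3).resolve_right hu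

end QB46
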