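import Pool.Agent.Helper46.QB.Transv

/-!
QB-02. The translations form a characteristic subgroup of `T : L`.

Proof. Let `H = {(α (tr v)).g}` = the image of the hom `v ↦ prL (α (tr v))`. It is a normal subgroup of `L`: `tr v` generate a
normal subgroup of `AG m` (`a * tr v * a⁻¹ = tr (act a.g v)`), `α` is an automorphism and `prL` is onto. Every `h ∈ H` has `h * h = 1`
(`tr v * tr v = tr (v + v) = 1`, `v + v = 0` over `F₂`), so `H` is a `2`-group. Fix `i`. `H` acts on the finite additive group
`Fin (m i) → ZMod 2` through the `i`-th component; the number of fixed points is even (`IsPGroup.card_modEq_card_fixedPoints`, the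
cardinality `2 ^ m i` is even) and `0` is fixed, so there is a fixed point `w ≠ 0`. The fixed points `F_i` form a subgroup of
`Fin (m i) → ZMod 2` which is stable under `GL_{m i}` (`H` is normal in `L`, and every element of `GL_{m i}` is the `i`-th component of an element of `L`).
So `F := {v : T m | v i ∈ F_i}` is stable under `L` and by `stable` `F_i` is everything. So all `h ∈ H` have `h i = 1`
(`Matrix.mulVec` determines the matrix, cf. `act_injective`).
-/

set_option autoImplicit false

namespace QB46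

variable {ι : Type} [DecidableEq ι] [Finite ι] {m : ι → ℕ}

omit [DecidableEq ι] [Finite ι] in
private theorem conj_tr (a : AG m) (v : T m) : a * tr v * a⁻¹ = tr (act a.g v) := by
  apply AG.ext
  · simp only [mul_v, mul_g, tr_v, tr_g, mul_one, inv_v, act_neg, ← act_mul, mul_inv_cancel,
      act_one]
    abel
  · simp

/-- The image of the translations in `L`. -/
private def imH (α : MulAut (AG m)) : Subgroup (L m) where
  carrier := {h | ∃ v : T m, (α (tr v)).g = h}
  one_mem' := ⟨0, by rw [tr_zero, map_one, one_g]⟩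
  mul_mem' := by
    rintro _ _ ⟨v, rfl⟩ ⟨w, rfl⟩
    exact ⟨v + w, by rw [tr_add, map_mul, mul_g]⟩
  inv_mem' := by
    rintro _ ⟨v, rfl⟩
    refine ⟨-v, ?_⟩
    have h1 : α (tr (-v)) * α (tr v) = 1 := by
      rw [← map_mul, ← tr_add, neg_add_cancel, tr_zero, map_one]
    have h2 := congrArg AG.g h1
    rw [mul_g, one_g] at h2
    exact eq_inv_of_mul_eq_one_left h2

omit [DecidableEq ι] [Finite ι] in
private theorem imH_conj (α : MulAut (AG m)) {h : L m} (hh : h ∈ imH α) (g : L m) :
    g * h * g⁻¹ ∈ imH α := by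
  obtain ⟨v, rfl⟩ := hh
  obtain ⟨a, ha⟩ := α.surjective (lin g)
  refine ⟨act a.g v, ?_⟩
  rw [← conj_tr, map_mul, map_mul, map_inv, ha]
  simp

omit [DecidableEq ι] [Finite ι] in
private theorem imH_sq (α : MulAut (AG m)) {h : L m} (hh : h ∈ imH α) : h * h = 1 := by
  obtain ⟨v, rfl⟩ := hh
  rw [← mul_g, ← map_mul, ← tr_add]
  have : v + v = 0 := by
    funext i
    funext j
    have : ∀ x : ZMod 2, x + x = 0 := by decide
    exact this _
  rw [this, tr_zero, map_one, one_g]

/-- The action on the `i`-th component. -/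
@[reducible] private def actI (α : MulAut (AG m)) (i : ι) : MulAction (imH α) (Fin (m i) → ZMod 2) where
  smul h x := (h.1 i : Matrix (Fin (m i)) (Fin (m i)) (ZMod 2)).mulVec x
  one_smul x := by
    change ((1 : L m) i : Matrix (Fin (m i)) (Fin (m i)) (ZMod 2)).mulVec x = x
    simp
  mul_smul g h x := by
    change ((g.1 * h.1 : L m) i : Matrix (Fin (m i)) (Fin (m i)) (ZMod 2)).mulVec x
      = (g.1 i : Matrix (Fin (m i)) (Fin (m i)) (ZMod 2)).mulVec
        ((h.1 i : Matrix (Fin (m i)) (Fin (m i)) (ZMod 2)).mulVec x)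
    rw [Matrix.mulVec_mulVec]
    rfl

/-- vectors whose `i`-th component is fixed by the image of the translations -/
private def fixI (α : MulAut (AG m)) (i : ι) : AddSubgroup (T m) where
  carrier := {v | ∀ h ∈ imH α, (h i : Matrix (Fin (m i)) (Fin (m i)) (ZMod 2)).mulVec (v i) = v i}
  zero_mem' := by
    intro h _
    simp
  add_mem' := by
    intro v w hv hw h hh
    have e1 := hv h hh
    have e2 := hw h hh
    rw [Pi.add_apply, Matrix.mulVec_add, e1, e2]
  neg_mem' := by
    intro v hv h hh
    have e1 := hv h hh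
    rw [Pi.neg_apply, Matrix.mulVec_neg, e1]

theorem alpha_tr (h2 : ∀ i, 2 ≤ m i) (α : MulAut (AG m)) (v : T m) : (α (tr v)).g = 1 := by
  have hmem : (α (tr v)).g ∈ imH α := ⟨v, rfl⟩
  have hp : IsPGroup 2 (imH α) := by
    intro h
    refine ⟨1, ?_⟩
    apply Subtype.ext
    have := imH_sq α h.2
    rw [pow_one, pow_two]
    exact this
  have : Fact (Nat.Prime 2) := ⟨Nat.prime_two⟩
  funext i
  let _ := actI α i
  have hcard : 2 ∣ Nat.card (Fin (m i) → ZMod 2) := by
    rw [Nat.card_fun, Nat.card_fin, Nat.card_zmod]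
    exact dvd_pow_self 2 (by have := h2 i; omega)
  have h0 : (0 : Fin (m i) → ZMod 2) ∈ MulAction.fixedPoints (imH α) (Fin (m i) → ZMod 2) := by
    intro h
    change (h.1 i : Matrix (Fin (m i)) (Fin (m i)) (ZMod 2)).mulVec 0 = 0
    simp
  obtain ⟨b, hb, hb0⟩ := hp.exists_fixed_point_of_prime_dvd_card_of_fixed_point
    (Fin (m i) → ZMod 2) hcard h0
  have hbF : (Pi.single i b : T m) ∈ fixI α i := by
    intro h hh
    rw [Pi.single_eq_same]
    exact hb ⟨h, hh⟩
  have hst : ∀ (g : L m), ∀ w ∈ fixI α i, act g w ∈ fixI α i := by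
    intro g w hw h hh
    have h1 : g⁻¹ * h * g ∈ imH α := by
      have := imH_conj α hh g⁻¹
      rwa [inv_inv] at this
    have h2 := hw _ h1
    have h3 : h * g = g * (g⁻¹ * h * g) := by group
    have h4 : act (h * g) w i = act g w i := by
      rw [h3, act_mul]
      change (g i : Matrix (Fin (m i)) (Fin (m i)) (ZMod 2)).mulVec (((g⁻¹ * h * g) i :
        Matrix (Fin (m i)) (Fin (m i)) (ZMod 2)).mulVec (w i)) = _
      rw [h2]
      rfl
    rw [act_mul] at h4
    exact h4
  have hall : ∀ w : Fin (m i) → ZMod 2, (Pi.single i w : T m) ∈ fixI α i := fun w =>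
    stable (fixI α i) hst hbF (i := i) (by rw [Pi.single_eq_same]; exact hb0.symm) (h2 i) w
  apply Units.ext
  apply Matrix.ext_of_mulVec_single
  intro j
  have h5 := hall (Pi.single j 1) _ hmem
  rw [Pi.single_eq_same] at h5
  rw [h5]
  exact (Matrix.one_mulVec _).symm

end QB46
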