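import Pool.Agent.Helper46.QB.Defs

/-!
QB-01. Transvections in `L` and `L`-stable subgroups of `T`.

* `act_tv`: `Matrix.transvection j l 1 = 1 + Matrix.single j l 1`, so `(1 + E_jl) v_i = v_i + (v_i)_l e_j`; the other
  components do not change (`Pi.mulSingle`).
* `stable`: let `v ∈ F`, `v i l ≠ 0`, so `v i l = 1`. For `j ≠ l`: `act (tv i j l) v - v = ev i j ∈ F`. As `2 ≤ m i` there is such a `j`, and then
  `act (tv i l j) (ev i j) - ev i j = ev i l ∈ F`. So all `ev i j ∈ F`, and every `Pi.single i w` is a sum of `ev i j`.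
-/

set_option autoImplicit false

namespace QB46

variable {ι : Type} [DecidableEq ι] {m : ι → ℕ}

theorem act_tv (i : ι) (j l : Fin (m i)) (h : j ≠ l) (v : T m) :
    act (tv i j l h) v = v + v i l • ev i j := by
  funext i'
  by_cases hi : i' = i
  · subst hi
    have h1 : ((tv i' j l h i' : GL (Fin (m i')) (ZMod 2)) : Matrix (Fin (m i')) (Fin (m i')) (ZMod 2)) =
        Matrix.transvection j l (1 : ZMod 2) := by
      unfold tv
      rw [Pi.mulSingle_eq_same]
      rfl
    change Matrix.mulVec ((tv i' j l h i' : GL (Fin (m i')) (ZMod 2)) :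
      Matrix (Fin (m i')) (Fin (m i')) (ZMod 2)) (v i') = _
    rw [h1, Matrix.transvection, Matrix.add_mulVec, Matrix.one_mulVec, Matrix.single_mulVec_eq,
      one_mul]
    change _ = v i' + v i' l • (ev i' j : T m) i'
    rw [ev, Pi.single_eq_same]
  · have h1 : (tv i j l h i' : GL (Fin (m i')) (ZMod 2)) = 1 := by
      unfold tv
      rw [Pi.mulSingle_eq_of_ne hi]
    change Matrix.mulVec ((tv i j l h i' : GL (Fin (m i')) (ZMod 2)) :
      Matrix (Fin (m i')) (Fin (m i')) (ZMod 2)) (v i') = v i' + v i l • (ev i j : T m) i'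
    rw [h1, ev, Pi.single_eq_of_ne hi, smul_zero, add_zero, Units.val_one, Matrix.one_mulVec]

/-- A subgroup of `T` stable under `L` which contains a vector with non zero component `i`
contains the whole summand `i`. -/
theorem stable (F : AddSubgroup (T m)) (hF : ∀ (g : L m), ∀ v ∈ F, act g v ∈ F) {v : T m}
    (hv : v ∈ F) {i : ι} (hi : v i ≠ 0) (h2 : 2 ≤ m i) (w : Fin (m i) → ZMod 2) :
    (Pi.single i w : T m) ∈ F := by
  have step : ∀ u ∈ F, ∀ j l : Fin (m i), j ≠ l → u i l ≠ 0 → ev i j ∈ F := by
    intro u hu j l hjl hul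
    have h1 : u i l = 1 := by
      have h2 : ∀ a : ZMod 2, a ≠ 0 → a = 1 := by decide
      exact h2 _ hul
    have h3 := F.sub_mem (hF (tv i j l hjl) u hu) hu
    rw [act_tv, h1, one_smul, add_sub_cancel_left] at h3
    exact h3
  obtain ⟨l, hl⟩ : ∃ l, v i l ≠ 0 := by
    by_contra hcon
    push Not at hcon
    exact hi (funext hcon)
  have hne : ∀ l : Fin (m i), ∃ j, j ≠ l := by
    intro l
    haveI : Nontrivial (Fin (m i)) := Fin.nontrivial_iff_two_le.mpr h2
    exact exists_ne l
  have hev : ∀ j l : Fin (m i), (ev i j : T m) ∈ F → l ≠ j → (ev i l : T m) ∈ F := by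
    intro j l hj hlj
    refine step _ hj l j hlj ?_
    rw [ev, Pi.single_eq_same, Pi.single_eq_same]
    exact one_ne_zero
  have hall : ∀ j, (ev i j : T m) ∈ F := by
    intro j
    by_cases hjl : j = l
    · subst hjl
      obtain ⟨j', hj'⟩ := hne j
      exact hev j' j (step v hv j' j hj' hl) hj'.symm
    · exact step v hv j l hjl hl
  have hw : (Pi.single i w : T m) = ∑ j, w j • (ev i j : T m) := by
    funext i'
    by_cases hi' : i' = i
    · subst hi'
      rw [Pi.single_eq_same, Finset.sum_apply]
      funext l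
      rw [Finset.sum_apply]
      rw [Finset.sum_eq_single l]
      · rw [Pi.smul_apply, ev, Pi.single_eq_same, Pi.smul_apply, Pi.single_eq_same, smul_eq_mul,
          mul_one]
      · intro b _ hb
        rw [Pi.smul_apply, ev, Pi.single_eq_same, Pi.smul_apply, Pi.single_eq_of_ne hb.symm,
          smul_zero]
      · intro h
        exact absurd (Finset.mem_univ l) h
    · rw [Pi.single_eq_of_ne hi', Finset.sum_apply]
      symm
      refine Finset.sum_eq_zero fun j _ => ?_
      rw [Pi.smul_apply, ev, Pi.single_eq_of_ne hi', smul_zero]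
  rw [hw]
  refine F.sum_mem fun j _ => ?_
  have h4 : ∀ a : ZMod 2, a = 0 ∨ a = 1 := by decide
  rcases h4 (w j) with h | h
  · rw [h, zero_smul]
    exact F.zero_mem
  · rw [h, one_smul]
    exact hall j

/-- `L` is faithful on `T`. -/
theorem act_injective {g h : L m} (H : ∀ v : T m, act g v = act h v) : g = h := by
  funext i
  apply Units.ext
  apply Matrix.ext_of_mulVec_single
  intro j
  have h1 := congrFun (H (ev i j)) i
  simp only [act, ev, Pi.single_eq_same] at h1
  exact h1

end QB46
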